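import Pool.Agent.Helper27_QL.Defs

/-!
# QL module M7 (basic facts on `DD`), helper60
-/

set_option autoImplicit false
open Matrix Polynomial MeasureTheory Set Filter Topology

namespace QL.H60

theorem val_act {ι : Type} [Fintype ι] (q : W ι) (g : Matrix ι ι ℝ) (v : ι → ℝ) :
    val (act q g) v = val q (g *ᵥ v) := by
  unfold val act
  refine Prod.ext ?_ ?_
  · change v ⬝ᵥ (gᵀ * q.1 * g) *ᵥ v = (g *ᵥ v) ⬝ᵥ q.1 *ᵥ (g *ᵥ v)
    rw [Matrix.mul_assoc, ← Matrix.mulVec_mulVec, Matrix.dotProduct_mulVec, Matrix.vecMul_transpose,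
      ← Matrix.mulVec_mulVec]
  · change (q.2 ᵥ* g) ⬝ᵥ v = q.2 ⬝ᵥ (g *ᵥ v)
    rw [Matrix.dotProduct_mulVec]

theorem act_act {ι : Type} [Fintype ι] (q : W ι) (g h : Matrix ι ι ℝ) :
    act (act q g) h = act q (g * h) := by
  unfold act
  refine Prod.ext ?_ ?_
  · change hᵀ * (gᵀ * q.1 * g) * h = (g * h)ᵀ * q.1 * (g * h)
    rw [Matrix.transpose_mul]
    simp only [Matrix.mul_assoc]
  · change (q.2 ᵥ* g) ᵥ* h = q.2 ᵥ* (g * h)
    rw [Matrix.vecMul_vecMul]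

/-- a matrix in `Gam` comes from an integer matrix of determinant one -/
theorem gam_int {ι : Type} [Fintype ι] [DecidableEq ι] {γ : Matrix ι ι ℝ} (hγ : γ ∈ Gam ι) :
    ∃ A : Matrix ι ι ℤ, A.det = 1 ∧ γ = A.map (Int.cast : ℤ → ℝ) := by
  obtain ⟨hdet, hint⟩ := hγ
  choose A hA using hint
  have hγA : γ = (Matrix.of A : Matrix ι ι ℤ).map (Int.cast : ℤ → ℝ) := by
    ext i j
    simp [hA i j]
  refine ⟨Matrix.of A, ?_, hγA⟩
  have h2 : ((Matrix.of A : Matrix ι ι ℤ).det : ℝ) = 1 := by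
    have := Int.cast_det (R := ℝ) (Matrix.of A : Matrix ι ι ℤ)
    rw [this]
    have h3 : (Matrix.of A : Matrix ι ι ℤ).map (Int.cast : ℤ → ℝ) = γ := hγA.symm
    rw [h3]
    exact hdet
  exact_mod_cast h2

theorem int_gam {ι : Type} [Fintype ι] [DecidableEq ι] {A : Matrix ι ι ℤ} (hA : A.det = 1) :
    A.map (Int.cast : ℤ → ℝ) ∈ Gam ι := by
  refine ⟨?_, fun i j => ⟨A i j, by simp⟩⟩
  have := Int.cast_det (R := ℝ) A
  rw [hA] at this
  rw [← this]
  simp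

theorem gam_mul {ι : Type} [Fintype ι] [DecidableEq ι] {γ γ' : Matrix ι ι ℝ} (h : γ ∈ Gam ι)
    (h' : γ' ∈ Gam ι) : γ * γ' ∈ Gam ι := by
  obtain ⟨A, hA, rfl⟩ := gam_int h
  obtain ⟨B, hB, rfl⟩ := gam_int h'
  have : A.map (Int.cast : ℤ → ℝ) * B.map (Int.cast : ℤ → ℝ) = (A * B).map (Int.cast : ℤ → ℝ) := by
    ext i j
    simp [Matrix.mul_apply]
  rw [this]
  exact int_gam (by rw [Matrix.det_mul, hA, hB, one_mul])

theorem gam_one {ι : Type} [Fintype ι] [DecidableEq ι] : (1 : Matrix ι ι ℝ) ∈ Gam ι := by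
  have := int_gam (ι := ι) (A := 1) (by simp)
  simpa using this

theorem gam_inv {ι : Type} [Fintype ι] [DecidableEq ι] {γ : Matrix ι ι ℝ} (h : γ ∈ Gam ι) :
    γ⁻¹ ∈ Gam ι := by
  obtain ⟨A, hA, rfl⟩ := gam_int h
  have hmul : A.map (Int.cast : ℤ → ℝ) * (A.adjugate).map (Int.cast : ℤ → ℝ) = 1 := by
    have h1 : A.map (Int.cast : ℤ → ℝ) * (A.adjugate).map (Int.cast : ℤ → ℝ)
        = (A * A.adjugate).map (Int.cast : ℤ → ℝ) := by
      ext i j
      simp [Matrix.mul_apply]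
    rw [h1, Matrix.mul_adjugate, hA]
    ext i j
    by_cases hij : i = j
    · subst hij; simp
    · simp [hij]
  rw [Matrix.inv_eq_right_inv hmul]
  exact int_gam (by
    have := congrArg Matrix.det (Matrix.mul_adjugate A)
    rw [Matrix.det_mul, hA] at this
    simpa using this)

theorem gam_mul_prm {ι : Type} [Fintype ι] [DecidableEq ι] {γ : Matrix ι ι ℝ} (hγ : γ ∈ Gam ι)
    {v : ι → ℝ} (hv : v ∈ Prm ι) : γ *ᵥ v ∈ Prm ι := by
  obtain ⟨A, hA, rfl⟩ := gam_int hγ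
  obtain ⟨w, hw, hvw⟩ := hv
  refine ⟨A *ᵥ w, ?_, ?_⟩
  · have hdvd : Finset.univ.gcd (A *ᵥ w) ∣ Finset.univ.gcd w := by
      refine Finset.dvd_gcd fun i _ => ?_
      have hi : w i = ∑ j, A.adjugate i j * (A *ᵥ w) j := by
        have h1 : A.adjugate *ᵥ (A *ᵥ w) = w := by
          rw [Matrix.mulVec_mulVec, Matrix.adjugate_mul, hA]
          simp
        have h2 := congrFun h1 i
        rw [← h2]
        rfl
      rw [hi]
      refine Finset.dvd_sum fun j _ => Dvd.dvd.mul_left ?_ _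
      exact Finset.gcd_dvd (Finset.mem_univ j)
    rw [hw] at hdvd
    have h1 : normalize (Finset.univ.gcd (A *ᵥ w)) = Finset.univ.gcd (A *ᵥ w) :=
      Finset.normalize_gcd
    have h2 : IsUnit (Finset.univ.gcd (A *ᵥ w)) := isUnit_of_dvd_one hdvd
    rw [← h1]
    exact normalize_eq_one.2 h2
  · intro i
    simp only [Matrix.mulVec, dotProduct, Matrix.map_apply, hvw]
    push_cast
    rfl

theorem DD_gam {ι : Type} [Fintype ι] [DecidableEq ι] {S : Set (ℝ × ℝ)} {x : Matrix ι ι ℝ}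
    {q : W ι} (h : (x, q) ∈ DD S) {γ : Matrix ι ι ℝ} (hγ : γ ∈ Gam ι) : (x * γ, q) ∈ DD S := by
  intro v hv
  have := h (γ *ᵥ v) (gam_mul_prm hγ hv)
  change val q ((x * γ) *ᵥ v) ∈ S
  rw [← Matrix.mulVec_mulVec]
  exact this

theorem DD_left {ι : Type} [Fintype ι] [DecidableEq ι] {S : Set (ℝ × ℝ)} {x g h : Matrix ι ι ℝ}
    {q : W ι} (hx : (x, q) ∈ DD S) (hgh : h * g = 1) : (g * x, act q h) ∈ DD S := by
  intro v hv
  change val (act q h) ((g * x) *ᵥ v) ∈ S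
  rw [val_act, Matrix.mulVec_mulVec, ← Matrix.mul_assoc, hgh, Matrix.one_mul]
  exact hx v hv

theorem val_cont {ι : Type} [Fintype ι] (v : ι → ℝ) :
    Continuous fun y : Matrix ι ι ℝ × W ι => val y.2 (y.1 *ᵥ v) := by
  unfold val
  refine Continuous.prodMk ?_ ?_
  · have h1 : Continuous fun y : Matrix ι ι ℝ × W ι => y.1 *ᵥ v := by
      fun_prop
    have h2 : Continuous fun y : Matrix ι ι ℝ × W ι => y.2.1 *ᵥ (y.1 *ᵥ v) := by
      exact Continuous.matrix_mulVec (by fun_prop) h1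
    exact Continuous.dotProduct h1 h2
  · have h1 : Continuous fun y : Matrix ι ι ℝ × W ι => y.1 *ᵥ v := by
      fun_prop
    exact Continuous.dotProduct (by fun_prop) h1

theorem DD_closed {ι : Type} [Fintype ι] {S : Set (ℝ × ℝ)} (hS : IsClosed S) :
    IsClosed (DD (ι := ι) S) := by
  have : DD (ι := ι) S = ⋂ v ∈ Prm ι, {y : Matrix ι ι ℝ × W ι | val y.2 (y.1 *ᵥ v) ∈ S} := by
    ext y
    simp only [DD, Set.mem_iInter]
    rfl
  rw [this]
  exact isClosed_biInter fun v _ => hS.preimage (val_cont v)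

end QL.H60
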