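import Pool.Agent.Helper60_QL.Drift

/-!
# QL modules pl_mul, growth, goodDir_dense, helper60
-/

set_option autoImplicit false
open Matrix Polynomial MeasureTheory Set Filter Topology

namespace QL.H60

section tens
variable {ι : Type} [Fintype ι] [DecidableEq ι]

omit [DecidableEq ι] in
theorem tens_mul (k : ℕ) (A B : Matrix ι ι ℝ) : tens k (A * B) = tens k A * tens k B := by
  classical
  ext i j
  simp only [tens, Matrix.mul_apply]
  rw [Finset.prod_univ_sum, Fintype.piFinset_univ]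
  refine Finset.sum_congr rfl fun l _ => ?_
  rw [Finset.prod_mul_distrib]

omit [Fintype ι] in
theorem tens_one (k : ℕ) : tens k (1 : Matrix ι ι ℝ) = 1 := by
  ext i j
  simp only [tens, Matrix.one_apply]
  by_cases hij : i = j
  · subst hij
    simp
  · rw [if_neg hij]
    obtain ⟨a, ha⟩ := Function.ne_iff.1 hij
    exact Finset.prod_eq_zero (Finset.mem_univ a) (if_neg ha)

/-- the matrix acting on one index -/
noncomputable def rm (b : Bool) (g : Matrix ι ι ℝ) : Matrix ι ι ℝ := if b then g else (g⁻¹)ᵀ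

theorem ract_eq (b : Bool) (k : ℕ) (g : Matrix ι ι ℝ) (w : (Fin k → ι) → ℝ) :
    ract b k g w = tens k (rm b g) *ᵥ w := rfl

theorem rm_mul (b : Bool) (g h : Matrix ι ι ℝ) : rm b (g * h) = rm b g * rm b h := by
  cases b
  · simp [rm, Matrix.mul_inv_rev, Matrix.transpose_mul]
  · simp [rm]

theorem rm_one (b : Bool) : rm b (1 : Matrix ι ι ℝ) = 1 := by
  cases b <;> simp [rm]

theorem ract_mul (b : Bool) (k : ℕ) (g h : Matrix ι ι ℝ) (w : (Fin k → ι) → ℝ) :
    ract b k (g * h) w = ract b k g (ract b k h w) := by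
  rw [ract_eq, ract_eq, ract_eq, rm_mul, tens_mul, Matrix.mulVec_mulVec]

theorem ract_one (b : Bool) (k : ℕ) (w : (Fin k → ι) → ℝ) :
    ract b k (1 : Matrix ι ι ℝ) w = w := by
  rw [ract_eq, rm_one, tens_one, Matrix.one_mulVec]

end tens

/-- the Pluecker vector of a product -/
theorem pl_mul {ι : Type} [Fintype ι] [DecidableEq ι] {k : ℕ} (g : Matrix ι ι ℝ)
    (A : Matrix ι (Fin k) ℝ) :
    (fun i : Fin k → ι => ((g * A).submatrix i id).det)
      = ract true k g (fun i : Fin k → ι => (A.submatrix i id).det) := by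
  funext i
  have h1 : (g * A).submatrix i id = Matrix.of (fun a => ∑ l, g (i a) l • A l) := by
    ext a c
    simp [Matrix.mul_apply]
  rw [h1]
  have h2 : (Matrix.of (fun a => ∑ l, g (i a) l • A l) : Matrix (Fin k) (Fin k) ℝ).det
      = Matrix.detRowAlternating.toMultilinearMap (fun a => ∑ l, g (i a) l • A l) := rfl
  rw [h2, MultilinearMap.map_sum]
  simp only [ract_eq, Matrix.mulVec, dotProduct, tens, rm, if_true]
  refine Finset.sum_congr rfl fun r _ => ?_
  rw [MultilinearMap.map_smul_univ]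
  rfl

section growth
variable {ι : Type} [Fintype ι] [DecidableEq ι] {d : ℕ}

theorem u_neg (U : UAct ι d) (w : Fin d → ℝ) : (U.u w)⁻¹ = U.u (-w) := by
  refine Matrix.inv_eq_right_inv ?_
  rw [← U.add, add_neg_cancel, u_zero]

theorem mv_ray (p : MvPolynomial (Fin d) ℝ) (θ : Fin d → ℝ) :
    ∃ P : ℝ[X], ∀ s : ℝ, MvPolynomial.eval (s • θ) p = P.eval s := by
  refine ⟨MvPolynomial.eval₂ Polynomial.C (fun i => Polynomial.C (θ i) * Polynomial.X) p,
    fun s => ?_⟩
  have h := MvPolynomial.eval₂_comp_left (Polynomial.evalRingHom s) Polynomial.C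
    (fun i => Polynomial.C (θ i) * Polynomial.X) p
  rw [Polynomial.coe_evalRingHom] at h
  rw [h, MvPolynomial.eval, MvPolynomial.coe_eval₂Hom]
  congr 1
  · exact RingHom.ext fun r => (Polynomial.eval_C (a := r) (x := s)).symm
  · funext i
    change s * θ i = Polynomial.eval s (Polynomial.C (θ i) * Polynomial.X)
    rw [Polynomial.eval_mul, Polynomial.eval_C, Polynomial.eval_X, mul_comm]

theorem rm_ray (U : UAct ι d) (θ : Fin d → ℝ) (b : Bool) (i j : ι) :
    ∃ P : ℝ[X], ∀ s : ℝ, rm b (U.u (s • θ)) i j = P.eval s := by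
  cases b
  · obtain ⟨P, hP⟩ := mv_ray (U.pol j i) (-θ)
    refine ⟨P, fun s => ?_⟩
    change ((U.u (s • θ))⁻¹)ᵀ i j = _
    rw [u_neg, Matrix.transpose_apply, U.spec, ← hP s, smul_neg]
  · obtain ⟨P, hP⟩ := mv_ray (U.pol i j) θ
    refine ⟨P, fun s => ?_⟩
    change U.u (s • θ) i j = _
    rw [U.spec, ← hP s]

/-- coordinates of a translate along a ray are polynomials -/
theorem ract_ray (U : UAct ι d) (θ : Fin d → ℝ) (b : Bool) (k : ℕ) (g0 : Matrix ι ι ℝ)
    (v : (Fin k → ι) → ℝ) (c : Fin k → ι) :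
    ∃ P : ℝ[X], ∀ s : ℝ, ract b k g0 (ract b k (U.u (s • θ)) v) c = P.eval s := by
  choose P hP using rm_ray U θ b
  refine ⟨∑ e, Polynomial.C (tens k (rm b g0) c e) * ∑ j, (∏ a, P (e a) (j a)) * Polynomial.C (v j),
    fun s => ?_⟩
  simp only [Polynomial.eval_finsetSum, Polynomial.eval_mul, Polynomial.eval_C,
    Polynomial.eval_prod, ← hP]
  rfl

theorem rm_left_inv (b : Bool) (h : Matrix ι ι ℝ) (hh : h.det = 1) : rm b h⁻¹ * rm b h = 1 := by
  rw [← rm_mul, Matrix.nonsing_inv_mul _ (by rw [hh]; exact isUnit_one), rm_one]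

theorem ract_inj (b : Bool) (k : ℕ) (h : Matrix ι ι ℝ) (hh : h.det = 1)
    (w : (Fin k → ι) → ℝ) : ract b k h⁻¹ (ract b k h w) = w := by
  rw [← ract_mul, Matrix.nonsing_inv_mul _ (by rw [hh]; exact isUnit_one), ract_one]

theorem fin_bdd (b : Bool) (k : ℕ) (h : Matrix ι ι ℝ) (hh : h.det = 1) (R : ℝ) :
    Set.Finite {w : (Fin k → ι) → ℤ | ∀ c, |ract b k h (iv w) c| ≤ R} := by
  classical
  set M := tens k (rm b h⁻¹) with hM
  set B : ℝ := ∑ i, ∑ j, |M i j| * |R| with hB
  have hsub : {w : (Fin k → ι) → ℤ | ∀ c, |ract b k h (iv w) c| ≤ R} ⊆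
      Set.Icc (fun _ => -⌈B⌉) (fun _ => ⌈B⌉) := by
    intro w hw
    have hbound : ∀ i, |(w i : ℝ)| ≤ B := by
      intro i
      have h1 : iv w = M *ᵥ (ract b k h (iv w)) := (ract_inj b k h hh (iv w)).symm
      have h2 : (w i : ℝ) = ∑ j, M i j * ract b k h (iv w) j := by
        have := congrFun h1 i
        simpa [iv, Matrix.mulVec, dotProduct] using this
      rw [h2]
      calc |∑ j, M i j * ract b k h (iv w) j| ≤ ∑ j, |M i j * ract b k h (iv w) j| :=
            Finset.abs_sum_le_sum_abs _ _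
        _ ≤ ∑ j, |M i j| * |R| := by
            refine Finset.sum_le_sum fun j _ => ?_
            rw [abs_mul]
            exact mul_le_mul_of_nonneg_left ((hw j).trans (le_abs_self R)) (abs_nonneg _)
        _ ≤ B := Finset.single_le_sum (f := fun i => ∑ j, |M i j| * |R|)
            (fun i _ => Finset.sum_nonneg fun j _ => by positivity) (Finset.mem_univ i)
    refine ⟨fun i => ?_, fun i => ?_⟩
    · have h1 := (abs_le.1 (hbound i)).1
      have h2 : (-(⌈B⌉ : ℝ)) ≤ (w i : ℝ) := by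
        have := Int.le_ceil B
        linarith
      exact_mod_cast h2
    · have h1 := (abs_le.1 (hbound i)).2
      have h2 : (w i : ℝ) ≤ (⌈B⌉ : ℝ) := h1.trans (Int.le_ceil B)
      exact_mod_cast h2
  exact (Set.finite_Icc _ _).subset hsub

/-- `θ` is a good direction for `x` (copy of the definition in `StmtA`) -/
def GoodDir {ι : Type} [Fintype ι] [DecidableEq ι] {d : ℕ} (U : UAct ι d) (x : Matrix ι ι ℝ)
    (θ : Fin d → ℝ) : Prop :=
  ∀ (b : Bool) (k : ℕ) (w : (Fin k → ι) → ℤ),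
    (∀ s : ℝ, ract b k (U.u (s • θ)) (ract b k x (iv w)) = ract b k x (iv w)) →
    ∀ w', ract b k (U.u w') (ract b k x (iv w)) = ract b k x (iv w)

theorem growth {ι : Type} [Fintype ι] [DecidableEq ι] {d : ℕ} (U : UAct ι d)
    (x g0 : Matrix ι ι ℝ) (hx : x.det = 1) (hg : g0.det = 1) (θ : Fin d → ℝ)
    (hθ : GoodDir U x θ) (b : Bool) (k : ℕ) (R : ℝ) : ∃ T0 : ℝ, ∀ T ≥ T0,
    ∀ w : (Fin k → ι) → ℤ, (∃ w', ract b k (U.u w') (ract b k x (iv w)) ≠ ract b k x (iv w)) →
      ∃ τ ∈ Icc (0 : ℝ) 1, ∃ c, R ≤ |ract b k (g0 * U.u ((τ * T) • θ) * x) (iv w) c| := by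
  classical
  have hdet : (g0 * x).det = 1 := by rw [Matrix.det_mul, hg, hx, one_mul]
  have hfin := fin_bdd b k (g0 * x) hdet R
  -- the threshold of one tensor
  have hone : ∀ w : (Fin k → ι) → ℤ,
      (∃ w', ract b k (U.u w') (ract b k x (iv w)) ≠ ract b k x (iv w)) →
      ∃ T0 : ℝ, ∀ T : ℝ, T ≥ T0 →
        ∃ c, R ≤ |ract b k (g0 * U.u (((1 : ℝ) * T) • θ) * x) (iv w) c| := by
    intro w hw
    have hnot : ¬ ∀ s : ℝ, ract b k (U.u (s • θ)) (ract b k x (iv w)) = ract b k x (iv w) := by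
      intro h
      obtain ⟨w', hw'⟩ := hw
      exact hw' (hθ b k w h w')
    choose P hP using ract_ray U θ b k g0 (ract b k x (iv w))
    have hnc : ∃ c, 0 < (P c).degree := by
      by_contra hcon
      push Not at hcon
      apply hnot
      intro s
      have h1 : ∀ s : ℝ, ract b k g0 (ract b k (U.u (s • θ)) (ract b k x (iv w)))
          = fun c => (P c).coeff 0 := by
        intro s
        funext c
        rw [hP c s]
        have := Polynomial.eq_C_of_degree_le_zero (hcon c)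
        rw [this]
        simp
      have h2 : ract b k g0 (ract b k (U.u (s • θ)) (ract b k x (iv w)))
          = ract b k g0 (ract b k x (iv w)) := by
        rw [h1 s, ← h1 0, zero_smul, u_zero, ract_one]
      have h3 := congrArg (ract b k g0⁻¹) h2
      rwa [ract_inj b k g0 hg, ract_inj b k g0 hg] at h3
    obtain ⟨c, hc⟩ := hnc
    have ht := Polynomial.abs_tendsto_atTop (P c) hc
    obtain ⟨T0, hT0⟩ := (ht.eventually_ge_atTop R).exists_forall_of_atTop
    refine ⟨T0, fun T hT => ⟨c, ?_⟩⟩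
    rw [one_mul, ract_mul, ract_mul, hP c T]
    exact hT0 T hT
  choose! T1 hT1 using hone
  obtain ⟨T0, hT0⟩ := (hfin.image T1).bddAbove
  refine ⟨T0, fun T hT w hw => ?_⟩
  by_cases hsmall : ∀ c, |ract b k (g0 * x) (iv w) c| ≤ R
  · have h1 : T1 w ≤ T0 := hT0 ⟨w, hsmall, rfl⟩
    exact ⟨1, ⟨zero_le_one, le_rfl⟩, hT1 w hw T (h1.trans hT)⟩
  · push Not at hsmall
    obtain ⟨c, hc⟩ := hsmall
    refine ⟨0, ⟨le_rfl, zero_le_one⟩, c, ?_⟩
    rw [zero_mul, zero_smul, u_zero, mul_one]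
    exact hc.le

/-- coordinates of `ract b k (U.u w) v` are polynomials in `w` -/
theorem ract_mv (U : UAct ι d) (b : Bool) (k : ℕ) (v : (Fin k → ι) → ℝ) (c : Fin k → ι) :
    ∃ P : MvPolynomial (Fin d) ℝ, ∀ w, ract b k (U.u w) v c = MvPolynomial.eval w P := by
  have h1 : ∀ i j, ∃ P : MvPolynomial (Fin d) ℝ, ∀ w, rm b (U.u w) i j = MvPolynomial.eval w P := by
    intro i j
    cases b
    · refine ⟨MvPolynomial.bind₁ (fun a => -MvPolynomial.X a) (U.pol j i), fun w => ?_⟩
      change ((U.u w)⁻¹)ᵀ i j = _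
      rw [u_neg, Matrix.transpose_apply, U.spec]
      have h := MvPolynomial.eval₂Hom_bind₁ (RingHom.id ℝ) w (fun a => -MvPolynomial.X a) (U.pol j i)
      change _ = MvPolynomial.eval₂Hom (RingHom.id ℝ) w _
      rw [h]
      change MvPolynomial.eval₂Hom (RingHom.id ℝ) (-w) (U.pol j i) = _
      congr 2
      funext a
      simp
    · exact ⟨U.pol i j, fun w => U.spec w i j⟩
  choose P hP using h1
  refine ⟨∑ j, (∏ a, P (c a) (j a)) * MvPolynomial.C (v j), fun w => ?_⟩
  simp only [map_sum, map_mul, map_prod, MvPolynomial.eval_C, ← hP]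
  rfl

theorem goodDir_dense {ι : Type} [Fintype ι] [DecidableEq ι] {d : ℕ} (U : UAct ι d)
    (x : Matrix ι ι ℝ) (_hx : x.det = 1) : Dense {θ : Fin d → ℝ | GoodDir U x θ} := by
  classical
  set I := {a : Bool × (Σ k : ℕ, ((Fin k → ι) → ℤ)) //
    ∃ w', ract a.1 a.2.1 (U.u w') (ract a.1 a.2.1 x (iv a.2.2)) ≠ ract a.1 a.2.1 x (iv a.2.2)}
    with hI
  set O : I → Set (Fin d → ℝ) := fun a => {θ | ract a.1.1 a.1.2.1 (U.u θ)
    (ract a.1.1 a.1.2.1 x (iv a.1.2.2)) ≠ ract a.1.1 a.1.2.1 x (iv a.1.2.2)} with hO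
  have hclosed : ∀ a, IsOpen (O a) := by
    intro a
    choose P hP using ract_mv U a.1.1 a.1.2.1 (ract a.1.1 a.1.2.1 x (iv a.1.2.2))
    have h1 : O a = ⋃ c, {θ | MvPolynomial.eval θ (P c) ≠ ract a.1.1 a.1.2.1 x (iv a.1.2.2) c} := by
      ext θ
      simp only [hO, Set.mem_iUnion]
      change (_ ≠ _) ↔ ∃ c, MvPolynomial.eval θ (P c) ≠ _
      rw [Function.ne_iff]
      simp only [hP]
    rw [h1]
    refine isOpen_iUnion fun c => ?_
    exact isOpen_ne_fun (MvPolynomial.continuous_eval (P c)) continuous_const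
  have hdense : ∀ a, Dense (O a) := by
    intro a
    obtain ⟨w', hw'⟩ := a.2
    choose P hP using ract_mv U a.1.1 a.1.2.1 (ract a.1.1 a.1.2.1 x (iv a.1.2.2))
    obtain ⟨c, hc⟩ := Function.ne_iff.1 hw'
    rw [hP] at hc
    set z := ract a.1.1 a.1.2.1 x (iv a.1.2.2) c with hz
    rw [dense_iff_inter_open]
    intro V hV ⟨θ0, hθ0⟩
    by_contra hcon
    have hzero : ∀ θ ∈ V, MvPolynomial.eval θ (P c) = z := by
      intro θ hθ
      by_contra hne
      apply hcon
      refine ⟨θ, hθ, ?_⟩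
      change ract a.1.1 a.1.2.1 (U.u θ) _ ≠ _
      rw [Function.ne_iff]
      exact ⟨c, by rw [hP]; exact hne⟩
    obtain ⟨ε, hε, hball⟩ := Metric.isOpen_iff.1 hV θ0 hθ0
    have hPc : P c = MvPolynomial.C z := by
      refine MvPolynomial.funext_set (fun i => Set.Ioo (θ0 i - ε) (θ0 i + ε))
        (fun i => Set.Ioo_infinite (by linarith)) fun θ hθ => ?_
      rw [MvPolynomial.eval_C]
      apply hzero
      apply hball
      rw [Metric.mem_ball, dist_pi_lt_iff hε]
      intro i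
      have := hθ i (Set.mem_univ i)
      rw [Real.dist_eq, abs_lt]
      constructor
      · have := this.1; linarith
      · have := this.2; linarith
    rw [hPc, MvPolynomial.eval_C] at hc
    exact hc rfl
  have hint := dense_iInter_of_isOpen hclosed hdense
  refine hint.mono ?_
  intro θ hθ b k w hfix w'
  by_contra hne
  have h1 := Set.mem_iInter.1 hθ ⟨(b, ⟨k, w⟩), ⟨w', hne⟩⟩
  apply h1
  have h2 := hfix 1
  rwa [one_smul] at h2

end growth

end QL.H60
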