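import Pool.Agent.Helper60_QL.Drift
import Pool.Agent.Helper27_QL.StmtApp3

/-!
# QL module alphaB, helper60
-/

set_option autoImplicit false
set_option linter.unusedSimpArgs false
open Matrix Polynomial MeasureTheory Set Filter Topology

namespace QL.H60

theorem act_cont_right {ι : Type} [Fintype ι] (p : W ι) :
    Continuous fun g : Matrix ι ι ℝ => act p g := by
  unfold act
  refine Continuous.prodMk ?_ ?_
  · exact ((Continuous.matrix_transpose continuous_id).matrix_mul continuous_const).matrix_mul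
      continuous_id
  · exact Continuous.matrix_vecMul continuous_const continuous_id

theorem goodB_entry (d : ℕ) (hd : 2 ≤ d) (B : Matrix (Fin d) (Fin d) ℝ) (hB : GoodB d B) :
    ∃ i j, B i j = 1 := by
  rcases hB with rfl | ⟨rfl, h⟩
  · exact ⟨⟨0, by omega⟩, ⟨0, by omega⟩, by simp⟩
  · exact ⟨0, 1, by rw [h]; simp⟩

theorem pB_eq {d : ℕ} (B : Matrix (Fin d) (Fin d) ℝ) : qB B 0 1 = pB B := by
  unfold qB pB
  rw [zero_smul, add_zero, one_smul]

theorem alphaB (ha : QL.algBStatement) (hfx : QL.fixedBStatement) : QL.alphaBStatement := by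
  intro d hd B hB S hS U hU Y x hret g hg hdet hD hnf
  obtain ⟨hfix, hdetQ, hdetne, hsymm⟩ := hfx d hd B hB
  have hBs : Bᵀ = B := by
    rcases hB with rfl | ⟨rfl, h⟩
    · simp
    · ext i j
      rw [Matrix.transpose_apply, h, h]
      simp [eq_comm]
  have halg := ha d B hBs
  have hpfix : ∀ w, act (pB B) (U.u w) = pB B := fun w => by rw [hU]; exact halg.2.2.2.1 w
  have hlim : Tendsto (fun i => act (pB B) (g i)) atTop (𝓝 (pB B)) := by
    have h1 : Tendsto (fun i => act (pB B) (g i)) atTop (𝓝 (act (pB B) 1)) :=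
      ((act_cont_right (pB B)).tendsto 1).comp hg
    rwa [act_one] at h1
  obtain ⟨P, hP0, ⟨ω, hω⟩, hPpoly, hPfix, hPDD, hPcl⟩ := drift U S hS Y x hret
    (fun i => act (pB B) (g i)) (pB B) hD hlim
    (fun i => by
      obtain ⟨w, hw⟩ := hnf i
      exact ⟨w, by rw [hU]; exact hw⟩) hpfix
  -- closed conditions
  have hQ1 : ∀ ω, (P ω).1ᵀ = (P ω).1 ∧ (P ω).1.det = (QB B).det := by
    intro ω
    have hcl : IsClosed {q : W (I3 d) | q.1ᵀ = q.1 ∧ q.1.det = (QB B).det} := by
      refine IsClosed.inter ?_ ?_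
      · exact isClosed_eq (Continuous.matrix_transpose continuous_fst) continuous_fst
      · exact isClosed_eq (Continuous.matrix_det continuous_fst) continuous_const
    refine closure_minimal ?_ hcl (hPcl ω)
    rintro q ⟨i, w, rfl⟩
    rw [act_act]
    have hd1 : (g i * U.u w).det = 1 := by
      rw [Matrix.det_mul, hdet, U.det_one, one_mul]
    constructor
    · change ((g i * U.u w)ᵀ * QB B * (g i * U.u w))ᵀ = (g i * U.u w)ᵀ * QB B * (g i * U.u w)
      generalize g i * U.u w = h
      rw [Matrix.transpose_mul, Matrix.transpose_mul, Matrix.transpose_transpose, hsymm,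
        Matrix.mul_assoc]
    · change ((g i * U.u w)ᵀ * QB B * (g i * U.u w)).det = (QB B).det
      rw [Matrix.det_mul, Matrix.det_mul, Matrix.det_transpose, hd1, one_mul, mul_one]
  obtain ⟨A, v, hAv⟩ := hPpoly ω
  obtain ⟨i0, j0, hij⟩ := goodB_entry d hd B hB
  set pa : ℝ[X] := A (Sum.inl i0) (Sum.inl j0) with hpa
  set pb : ℝ[X] := A (Sum.inr 0) (Sum.inr 0) with hpb
  set pc : ℝ[X] := v (Sum.inr 0) with hpc
  -- the form of the limit
  have hform : ∀ t : ℝ, pa.eval t ^ (d + 2) = 1 ∧
      P (t • ω) = (pa.eval t • QB B + pb.eval t • LL d, pc.eval t • LB d) := by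
    intro t
    obtain ⟨a, b, c, hq⟩ := hfix (P (t • ω)) (hQ1 (t • ω)).1 (fun w => by
      rw [← hU]; exact hPfix (t • ω) w)
    have hdt := (hQ1 (t • ω)).2
    rw [hq] at hdt
    change (a • QB B + b • LL d).det = (QB B).det at hdt
    rw [hdetQ] at hdt
    have ha1 : a ^ (d + 2) = 1 := by
      have := mul_right_cancel₀ hdetne (hdt.trans (one_mul _).symm)
      exact this
    have hAt := hAv t
    rw [hq] at hAt
    have h1 : a • QB B + b • LL d = ev A t := congrArg Prod.fst hAt
    have h2 : c • LB d = fun i => (v i).eval t := congrArg Prod.snd hAt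
    have ea : pa.eval t = a := by
      have := congrFun (congrFun h1 (Sum.inl i0)) (Sum.inl j0)
      rw [Matrix.add_apply, Matrix.smul_apply, Matrix.smul_apply] at this
      simp only [QB, LL, LB, Matrix.fromBlocks_apply₁₁, Matrix.vecMulVec_apply, Sum.elim_inl, hij,
        Pi.zero_apply, mul_zero, smul_eq_mul, mul_one, add_zero, ev, Matrix.map_apply] at this
      exact this.symm
    have eb : pb.eval t = b := by
      have := congrFun (congrFun h1 (Sum.inr 0)) (Sum.inr 0)
      rw [Matrix.add_apply, Matrix.smul_apply, Matrix.smul_apply] at this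
      simp [QB, LL, LB, Matrix.vecMulVec_apply, ev, Matrix.map_apply] at this
      exact this.symm
    have ec : pc.eval t = c := by
      have := congrFun h2 (Sum.inr 0)
      simp [LB] at this
      exact this.symm
    rw [ea, eb, ec]
    exact ⟨ha1, hq⟩
  -- `pa` is constant
  have hpa1 : pa = 1 := by
    have hpow : pa ^ (d + 2) = 1 := by
      refine Polynomial.funext fun t => ?_
      rw [Polynomial.eval_pow, (hform t).1, Polynomial.eval_one]
    have hunit : IsUnit pa := IsUnit.of_pow_eq_one hpow (by omega)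
    obtain ⟨r, -, hr⟩ := Polynomial.isUnit_iff.1 hunit
    have h0 := (hform 0).2
    rw [zero_smul, hP0] at h0
    have h1 : QB B = pa.eval 0 • QB B + pb.eval 0 • LL d := congrArg Prod.fst h0
    have h2 := congrFun (congrFun h1 (Sum.inl i0)) (Sum.inl j0)
    rw [Matrix.add_apply, Matrix.smul_apply, Matrix.smul_apply] at h2
    simp only [QB, LL, LB, Matrix.fromBlocks_apply₁₁, Matrix.vecMulVec_apply, Sum.elim_inl, hij,
      Pi.zero_apply, mul_zero, smul_eq_mul, mul_one, add_zero] at h2
    rw [← hr, Polynomial.eval_C] at h2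
    rw [← hr, ← h2, Polynomial.C_1]
  have hform2 : ∀ t : ℝ, P (t • ω) = qB B (pb.eval t) (pc.eval t) := by
    intro t
    rw [(hform t).2, hpa1, Polynomial.eval_one, one_smul]
    rfl
  have hz : qB B (pb.eval 0) (pc.eval 0) = pB B := by
    rw [← hform2 0, zero_smul, hP0]
  have hb0 : pb.eval 0 = 0 := by
    have h1 : QB B + pb.eval 0 • LL d = QB B := congrArg Prod.fst hz
    have h2 := congrFun (congrFun h1 (Sum.inr 0)) (Sum.inr 0)
    rw [Matrix.add_apply, Matrix.smul_apply] at h2
    simpa [QB, LL, LB, Matrix.vecMulVec_apply] using h2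
  have hc0 : pc.eval 0 = 1 := by
    have h1 : pc.eval 0 • LB d = LB d := congrArg Prod.snd hz
    have h2 := congrFun h1 (Sum.inr 0)
    simpa [LB] using h2
  refine ⟨pb, pc, ⟨hb0, hc0, ?_, ?_⟩, ?_⟩
  · by_contra hcon
    push Not at hcon
    apply hω
    have h1 := hform2 1
    rw [one_smul, hcon.1, hcon.2, Polynomial.eval_zero, Polynomial.eval_one, pB_eq] at h1
    exact h1
  · intro t x' hx'
    rw [← hform2 t]
    exact hPDD (t • ω) x' hx'
  · intro t
    rw [← hform2 t]
    refine closure_mono ?_ (hPcl (t • ω))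
    rintro q ⟨i, w, rfl⟩
    exact ⟨i, w, by rw [act_act, hU]⟩

end QL.H60
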