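import Pool.Agent.Helper60_QL.Wrap

/-!
# QL modules final3, final4, helper60
-/

set_option autoImplicit false
open Matrix Polynomial MeasureTheory Set Filter Topology

namespace QL.H60

theorem prm_single {ι : Type} [Fintype ι] [DecidableEq ι] (j : ι) :
    (Pi.single j 1 : ι → ℝ) ∈ Prm ι := by
  refine ⟨Pi.single j 1, ?_, ?_⟩
  · have h1 : Finset.univ.gcd (Pi.single j 1 : ι → ℤ) ∣ (1 : ℤ) := by
      have := Finset.gcd_dvd (s := Finset.univ) (f := (Pi.single j 1 : ι → ℤ)) (Finset.mem_univ j)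
      simpa using this
    have h2 : normalize (Finset.univ.gcd (Pi.single j 1 : ι → ℤ))
        = Finset.univ.gcd (Pi.single j 1 : ι → ℤ) := Finset.normalize_gcd
    rw [← h2]
    exact normalize_eq_one.2 (isUnit_of_dvd_one h1)
  · intro i
    by_cases h : i = j
    · subst h; simp
    · simp [Pi.single_eq_of_ne h]

/-- some primitive vector has nonzero pairing with a nonzero covector -/
theorem prm_ne {ι : Type} [Fintype ι] [DecidableEq ι] (m : ι → ℝ) (hm : m ≠ 0) :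
    ∃ v ∈ Prm ι, m ⬝ᵥ v ≠ 0 := by
  obtain ⟨j, hj⟩ := Function.ne_iff.1 hm
  refine ⟨Pi.single j 1, prm_single j, ?_⟩
  simpa using hj

theorem row_ne {ι : Type} [Fintype ι] [DecidableEq ι] (z : Matrix ι ι ℝ) (hz : z.det = 1)
    (l : ι → ℝ) (hl : l ≠ 0) : l ᵥ* z ≠ 0 := by
  intro h
  apply hl
  have h1 : (l ᵥ* z) ᵥ* z⁻¹ = l := by
    rw [Matrix.vecMul_vecMul, Matrix.mul_nonsing_inv _ (by rw [hz]; exact isUnit_one),
      Matrix.vecMul_one]
  rw [← h1, h, Matrix.zero_vecMul]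

theorem final3 : QL.final3Statement := by
  intro S z hz h a
  have hc3 : c3 ≠ 0 := by
    intro h0
    have := congrFun h0 0
    simp [c3] at this
  obtain ⟨v, hv, hne⟩ := prm_ne (c3 ᵥ* z) (row_ne z hz c3 hc3)
  rw [← Matrix.dotProduct_mulVec] at hne
  set y : Fin 3 → ℝ := z *ᵥ v with hy
  have hy0 : y 0 ≠ 0 := by
    intro h0
    apply hne
    simp [c3, dotProduct, Fin.sum_univ_three, h0]
  have h1 := h ((a - (2 * y 0 * y 2 - y 1 ^ 2)) / y 0 ^ 2) v hv
  have h2 : val (form3 1 ((a - (2 * y 0 * y 2 - y 1 ^ 2)) / y 0 ^ 2), (0 : Fin 3 → ℝ)) y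
      = (a, 0) := by
    refine Prod.ext ?_ ?_
    · simp only [val, form3, Matrix.mulVec, dotProduct, Fin.sum_univ_three, Matrix.of_apply,
        Matrix.cons_val', Matrix.cons_val_zero, Matrix.cons_val_one, Matrix.cons_val]
      field_simp
      ring
    · simp [val]
  rw [← h2]
  exact h1

theorem act_n4 (b μ α : ℝ) : act p4 (n4 b μ α) = (form4 1 (2*α) μ 0, cov4 1 b) := by
  refine Prod.ext ?_ ?_
  · ext i j
    fin_cases i <;> fin_cases j <;>
      (simp [act, p4, B4, n4, form4, Matrix.mul_apply, Fin.sum_univ_four]; try ring)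
  · funext i
    fin_cases i <;> simp [act, p4, L4, n4, cov4]

theorem val_n4 (b μ α : ℝ) (y : Fin 4 → ℝ) : val (act p4 (n4 b μ α)) y =
    (2 * y 0 * y 2 - y 1 ^ 2 + 2 * α * y 0 ^ 2 + 2 * μ * y 0 * y 3, y 3 + b * y 0) := by
  rw [act_n4]
  refine Prod.ext ?_ ?_
  · simp [val, form4, Matrix.mulVec, dotProduct, Fin.sum_univ_four]
    ring
  · simp [val, cov4, dotProduct, Fin.sum_univ_four]
    ring

theorem c4_ne : c4 ≠ 0 := by
  intro h0
  have := congrFun h0 0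
  simp [c4] at this

theorem L4_ne : L4 ≠ 0 := by
  intro h0
  have := congrFun h0 3
  simp [L4] at this

/-- conclusion when all `(a, y 3)` are values for a large set of primitive vectors -/
theorem fin_AB (hdl : QL.dense_linStatement) (S : Set (ℝ × ℝ)) (hS : IsClosed S)
    (z : Matrix (Fin 4) (Fin 4) ℝ) (hdet : z.det = 1)
    (hL : ∀ w : Fin 4 → ℤ, w ≠ 0 → ¬ ∃ c : ℝ, iv w = c • (L4 ᵥ* z))
    (h : ∀ v ∈ Prm (Fin 4), (z *ᵥ v) 0 ≠ 0 → (z *ᵥ v) 3 ≠ 0 → ∀ a : ℝ, (a, (z *ᵥ v) 3) ∈ S) :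
    S = univ := by
  have hD := hdl (L4 ᵥ* z) (c4 ᵥ* z) (row_ne z hdet L4 L4_ne) hL (row_ne z hdet c4 c4_ne)
  have hD2 := hD.sdiff_singleton (0 : ℝ)
  refine Set.eq_univ_of_forall fun p => ?_
  obtain ⟨a, b⟩ := p
  have hcl : IsClosed {t : ℝ | (a, t) ∈ S} := hS.preimage (by fun_prop)
  have hsub : {t : ℝ | ∃ v ∈ Prm (Fin 4), (c4 ᵥ* z) ⬝ᵥ v ≠ 0 ∧ t = (L4 ᵥ* z) ⬝ᵥ v} \ {0} ⊆
      {t : ℝ | (a, t) ∈ S} := by
    rintro t ⟨⟨v, hv, hm, rfl⟩, ht⟩
    rw [← Matrix.dotProduct_mulVec] at hm ht ⊢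
    have h0 : c4 ⬝ᵥ z *ᵥ v = (z *ᵥ v) 0 := by
      simp [c4, dotProduct, Fin.sum_univ_four]
    have h3 : L4 ⬝ᵥ z *ᵥ v = (z *ᵥ v) 3 := by
      simp [L4, dotProduct, Fin.sum_univ_four]
    rw [h0] at hm
    rw [h3] at ht ⊢
    exact h v hv hm (by simpa using ht) a
  have hdense : Dense {t : ℝ | (a, t) ∈ S} := hD2.mono hsub
  have huniv : {t : ℝ | (a, t) ∈ S} = univ := by
    rw [← hcl.closure_eq, hdense.closure_eq]
  have : b ∈ {t : ℝ | (a, t) ∈ S} := by rw [huniv]; trivial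
  exact this

theorem final4 (hdl : QL.dense_linStatement) (ho : QL.oppnStatement)
    (hTL : QL.TL4_factsStatement) : QL.final4Statement := by
  intro S hS z hz h
  obtain ⟨hdet, hL, hc, hR⟩ := (hTL.2.2 z).1 hz
  rcases h with h | ⟨b1, μ1, hne, h⟩
  · refine fin_AB hdl S hS z hdet hL fun v hv h0 h3 a => ?_
    set y := z *ᵥ v with hy
    have h1 := h ((a - (2 * y 0 * y 2 - y 1 ^ 2)) / (2 * y 0 ^ 2)) v hv
    change val (act p4 (n4 0 0 ((a - (2 * y 0 * y 2 - y 1 ^ 2)) / (2 * y 0 ^ 2)))) y ∈ S at h1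
    rw [val_n4] at h1
    have h2 : (2 * y 0 * y 2 - y 1 ^ 2 +
        2 * ((a - (2 * y 0 * y 2 - y 1 ^ 2)) / (2 * y 0 ^ 2)) * y 0 ^ 2 + 2 * 0 * y 0 * y 3,
        y 3 + 0 * y 0) = (a, y 3) := by
      refine Prod.ext ?_ ?_
      · simp only
        field_simp
        ring
      · simp
    rwa [h2] at h1
  · by_cases hb : b1 = 0
    · subst hb
      have hμ : μ1 ≠ 0 := by
        rcases hne with h' | h'
        · exact absurd rfl h'
        · exact h'
      refine fin_AB hdl S hS z hdet hL fun v hv h0 h3 a => ?_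
      set y := z *ᵥ v with hy
      have h1 := h ((a - (2 * y 0 * y 2 - y 1 ^ 2)) / (2 * μ1 * y 0 * y 3)) v hv
      change val (act p4 (n4 _ _ _)) y ∈ S at h1
      rw [val_n4] at h1
      convert h1 using 2
      · field_simp
        ring
      · ring
    · -- the hyperbolic case
      set κ : ℝ := μ1 / b1 with hκ
      set M : Matrix (Fin 4) (Fin 4) ℝ := B4 - κ • vecMulVec L4 L4 with hM
      set A : Matrix (Fin 4) (Fin 4) ℝ := zᵀ * M * z with hA
      have hu : IsUnit z.det := by rw [hdet]; exact isUnit_one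
      have hMe : M = !![0,0,1,0; 0,-1,0,0; 1,0,0,0; 0,0,0,-κ] := by
        ext i j
        rw [hM, Matrix.sub_apply, Matrix.smul_apply, Matrix.vecMulVec_apply]
        fin_cases i <;> fin_cases j <;> simp [B4, L4]
      have hMsymm : Mᵀ = M := by
        rw [hMe]
        ext i j
        fin_cases i <;> fin_cases j <;> simp
      have hAsymm : Aᵀ = A := by
        rw [hA, Matrix.transpose_mul, Matrix.transpose_mul, Matrix.transpose_transpose, hMsymm,
          Matrix.mul_assoc]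
      have hval : ∀ v : Fin 4 → ℝ, v ⬝ᵥ A *ᵥ v =
          2 * (z *ᵥ v) 0 * (z *ᵥ v) 2 - (z *ᵥ v) 1 ^ 2 - κ * (z *ᵥ v) 3 ^ 2 := by
        intro v
        have h1 : v ⬝ᵥ A *ᵥ v = (z *ᵥ v) ⬝ᵥ M *ᵥ (z *ᵥ v) := by
          rw [hA, Matrix.mul_assoc, ← Matrix.mulVec_mulVec, Matrix.dotProduct_mulVec,
            Matrix.vecMul_transpose, ← Matrix.mulVec_mulVec]
        rw [h1, hMe]
        generalize z *ᵥ v = y
        simp [Matrix.mulVec, dotProduct, Fin.sum_univ_four]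
        ring
      have hrk : ∃ V : Matrix (Fin 4) (Fin 3) ℝ, (Vᵀ * A * V).det ≠ 0 := by
        set E : Matrix (Fin 4) (Fin 3) ℝ := (1 : Matrix (Fin 4) (Fin 4) ℝ).submatrix id Fin.castSucc
          with hE
        refine ⟨z⁻¹ * E, ?_⟩
        have h1 : (z⁻¹ * E)ᵀ * A * (z⁻¹ * E) = Eᵀ * M * E := by
          have h2 : (z⁻¹)ᵀ * zᵀ = 1 := by
            rw [← Matrix.transpose_mul, Matrix.mul_nonsing_inv _ hu, Matrix.transpose_one]
          have h3 : z * z⁻¹ = 1 := Matrix.mul_nonsing_inv _ hu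
          calc (z⁻¹ * E)ᵀ * A * (z⁻¹ * E)
              = Eᵀ * ((z⁻¹)ᵀ * zᵀ) * M * (z * z⁻¹) * E := by
                rw [hA, Matrix.transpose_mul]
                simp only [Matrix.mul_assoc]
            _ = Eᵀ * M * E := by rw [h2, h3, Matrix.mul_one, Matrix.mul_one]
        rw [h1]
        have h4 : Eᵀ * M * E = !![0,0,1; 0,-1,0; 1,0,0] := by
          rw [hMe]
          ext i j
          fin_cases i <;> fin_cases j <;>
            simp [hE, Matrix.mul_apply, Matrix.one_apply]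
        rw [h4, Matrix.det_fin_three]
        simp
      have hx : ∀ y : Fin 4 → ℝ, z *ᵥ (z⁻¹ *ᵥ y) = y := by
        intro y
        rw [Matrix.mulVec_mulVec, Matrix.mul_nonsing_inv _ hu, Matrix.one_mulVec]
      have hpos : ∃ x, 0 < x ⬝ᵥ A *ᵥ x := by
        refine ⟨z⁻¹ *ᵥ ![1,0,1,0], ?_⟩
        rw [hval, hx]
        simp
      have hneg : ∃ x, x ⬝ᵥ A *ᵥ x < 0 := by
        refine ⟨z⁻¹ *ᵥ ![0,1,0,0], ?_⟩
        rw [hval, hx]
        simp
      have hirr : ∀ R : Matrix (Fin 4) (Fin 4) ℤ, R ≠ 0 → ¬ ∃ c : ℝ, im R = c • A := by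
        rintro R hR0 ⟨c, hc'⟩
        refine hR R hR0 ⟨c, -(c * κ), ?_⟩
        rw [hc', hA, hM, Matrix.mul_sub, Matrix.sub_mul, smul_sub, Matrix.mul_smul,
          Matrix.smul_mul, Matrix.mul_vecMulVec, Matrix.vecMulVec_mul, Matrix.mulVec_transpose,
          smul_smul, neg_smul, sub_eq_add_neg]
      have hO := ho A hAsymm hrk hpos hneg hirr (c4 ᵥ* z) (row_ne z hdet c4 c4_ne) hc
      refine Set.eq_univ_of_forall fun p => ?_
      obtain ⟨a, b⟩ := p
      have hcl : IsClosed {t : ℝ | (t + κ * b ^ 2, b) ∈ S} := hS.preimage (by fun_prop)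
      have hsub : {t : ℝ | ∃ v ∈ Prm (Fin 4), (c4 ᵥ* z) ⬝ᵥ v ≠ 0 ∧ t = v ⬝ᵥ A *ᵥ v} ⊆
          {t : ℝ | (t + κ * b ^ 2, b) ∈ S} := by
        rintro t ⟨v, hv, hm, rfl⟩
        rw [← Matrix.dotProduct_mulVec] at hm
        have h0 : c4 ⬝ᵥ z *ᵥ v = (z *ᵥ v) 0 := by
          simp [c4, dotProduct, Fin.sum_univ_four]
        rw [h0] at hm
        rw [hval]
        set y := z *ᵥ v with hy
        change (2 * y 0 * y 2 - y 1 ^ 2 - κ * y 3 ^ 2 + κ * b ^ 2, b) ∈ S
        have h1 := h ((b - y 3) / (b1 * y 0)) v hv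
        change val (act p4 (n4 _ _ _)) y ∈ S at h1
        rw [val_n4] at h1
        convert h1 using 2
        · rw [hκ]
          field_simp
          ring
        · field_simp
          ring
      have hdense : Dense {t : ℝ | (t + κ * b ^ 2, b) ∈ S} := hO.mono hsub
      have huniv : {t : ℝ | (t + κ * b ^ 2, b) ∈ S} = univ := by
        rw [← hcl.closure_eq, hdense.closure_eq]
      have : (a - κ * b ^ 2) ∈ {t : ℝ | (t + κ * b ^ 2, b) ∈ S} := by rw [huniv]; trivial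
      have h2 : (a - κ * b ^ 2 + κ * b ^ 2, b) ∈ S := this
      rwa [sub_add_cancel] at h2

end QL.H60
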