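import Pool.Agent.Helper60_QL.Limit

/-!
# QL module limit3, helper60
-/

set_option autoImplicit false
open Matrix Polynomial MeasureTheory Set Filter Topology

namespace QL.H60

/-- second order Taylor expansion -/
theorem tay2 (f : ℝ[X]) (t : ℝ) : ∃ q : ℝ[X], ∀ r : ℝ,
    f.eval (t + r) = f.eval t + r * (derivative f).eval t + r ^ 2 * q.eval r := by
  set p := Polynomial.taylor t f with hp
  refine ⟨divX (divX p), fun r => ?_⟩
  have h0 : f.eval (t + r) = p.eval r := by
    rw [hp, Polynomial.taylor_eval, add_comm]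
  have h1 : p = (divX (divX p) * X + C (p.coeff 1)) * X + C (p.coeff 0) := by
    have e1 := Polynomial.divX_mul_X_add p
    have e2 := Polynomial.divX_mul_X_add (divX p)
    rw [Polynomial.coeff_divX] at e2
    rw [e2, e1]
  have h2 : p.coeff 0 = f.eval t := by rw [hp, Polynomial.taylor_coeff_zero]
  have h3 : p.coeff 1 = (derivative f).eval t := by rw [hp, Polynomial.taylor_coeff_one]
  rw [h0]
  conv_lhs => rw [h1]
  simp only [Polynomial.eval_add, Polynomial.eval_mul, Polynomial.eval_X, Polynomial.eval_C]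
  rw [h2, h3]
  ring

/-- third order Taylor expansion -/
theorem tay3 (f : ℝ[X]) (t : ℝ) : ∃ q : ℝ[X], ∀ r : ℝ,
    f.eval (t + r) = f.eval t + r * (derivative f).eval t +
      r ^ 2 * ((derivative (derivative f)).eval t / 2) + r ^ 3 * q.eval r := by
  set p := Polynomial.taylor t f with hp
  refine ⟨divX (divX (divX p)), fun r => ?_⟩
  have h0 : f.eval (t + r) = p.eval r := by
    rw [hp, Polynomial.taylor_eval, add_comm]
  have h1 : p = ((divX (divX (divX p)) * X + C (p.coeff 2)) * X + C (p.coeff 1)) * X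
      + C (p.coeff 0) := by
    have e1 := Polynomial.divX_mul_X_add p
    have e2 := Polynomial.divX_mul_X_add (divX p)
    have e3 := Polynomial.divX_mul_X_add (divX (divX p))
    rw [Polynomial.coeff_divX] at e2
    rw [Polynomial.coeff_divX, Polynomial.coeff_divX] at e3
    rw [e3, e2, e1]
  have h2 : p.coeff 0 = f.eval t := by rw [hp, Polynomial.taylor_coeff_zero]
  have h3 : p.coeff 1 = (derivative f).eval t := by rw [hp, Polynomial.taylor_coeff_one]
  have h4 : p.coeff 2 = (derivative (derivative f)).eval t / 2 := by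
    rw [hp, Polynomial.taylor_coeff]
    have h5 := Polynomial.factorial_smul_hasseDeriv (R := ℝ) 2
    have h6 := congrFun h5 f
    have h7 : (2 : ℝ) * (hasseDeriv 2 f).eval t = (derivative (derivative f)).eval t := by
      have h8 := congrArg (Polynomial.eval t) h6
      simpa [Nat.factorial] using h8
    linarith
  rw [h0]
  conv_lhs => rw [h1]
  simp only [Polynomial.eval_add, Polynomial.eval_mul, Polynomial.eval_X, Polynomial.eval_C]
  rw [h2, h3, h4]
  ring

def N3 : Matrix (Fin 3) (Fin 3) ℝ := !![0,0,0; 1,0,0; 0,1,0]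
def wt3 : Fin 3 → ℤ := ![-1,0,1]

theorem a3_diag (l : ℝ) : a3 l = Matrix.diagonal (fun j => l ^ wt3 j) := by
  ext i j
  fin_cases i <;> fin_cases j <;> simp [a3, wt3]

theorem u3_N (t : ℝ) : u3 t = 1 + t • N3 + (t^2/2) • (N3 * N3) := by
  ext i j
  fin_cases i <;> fin_cases j <;>
    simp [u3, N3]

theorem N3_cube : N3 * N3 * N3 = 0 := by
  ext i j
  fin_cases i <;> fin_cases j <;>
    simp [N3, Matrix.mul_apply, Fin.sum_univ_three]

theorem N3_comm : N3 * N3ᵀ - N3ᵀ * N3 = Matrix.diagonal (fun i => (wt3 i : ℝ)) := by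
  ext i j
  rw [Matrix.sub_apply, Matrix.mul_apply, Matrix.mul_apply, Fin.sum_univ_three,
    Fin.sum_univ_three]
  simp only [Matrix.transpose_apply]
  fin_cases i <;> fin_cases j <;> simp [N3, wt3]

theorem N3_wt : ∀ i j, N3 i j ≠ 0 → wt3 i = wt3 j + 1 := by
  intro i j
  fin_cases i <;> fin_cases j <;> simp [N3, wt3]

theorem a3_det (l : ℝ) (hl : 0 < l) : (Matrix.diagonal (fun j => l ^ wt3 j)).det = 1 := by
  rw [Matrix.det_diagonal, Fin.prod_univ_three]
  have : l ≠ 0 := hl.ne'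
  simp [wt3, this]

theorem v3_u3 (β t : ℝ) : v3 β * u3 t = u3 t * v3 β := by
  ext i j
  fin_cases i <;> fin_cases j <;>
    (simp [u3, v3, Matrix.mul_apply, Fin.sum_univ_three]; try ring)

theorem v3_det (β : ℝ) : (v3 β).det = 1 := by
  rw [Matrix.det_fin_three]
  simp [v3]

theorem form3_act (l β a : ℝ) (hl : l ≠ 0) :
    act (form3 1 a, (0 : Fin 3 → ℝ)) (v3 (-β) * a3 l⁻¹) = (form3 1 (l^2 * (a - 2*β)), 0) := by
  refine Prod.ext ?_ ?_
  · ext i j
    fin_cases i <;> fin_cases j <;>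
      (simp [act, form3, v3, a3, Matrix.mul_apply, Fin.sum_univ_three]; try (field_simp; try ring))
  · simp [act]

theorem h3_mul (l β : ℝ) (hl : l ≠ 0) : v3 (-β) * a3 l⁻¹ * (a3 l * v3 β) = 1 := by
  ext i j
  fin_cases i <;> fin_cases j <;>
    simp [v3, a3, Matrix.mul_apply, Fin.sum_univ_three, hl]

/-- the zoom limit `l² (f (t + ρ / (l² A)) - f t) → ρ` when `A = f' t ≠ 0` -/
theorem zoom1 (f : ℝ[X]) (t A ρ : ℝ) (hA : A ≠ 0) (hfA : (derivative f).eval t = A)
    (l : ℕ → ℝ) (hl : Tendsto l atTop atTop) (hl0 : ∀ m, 0 < l m) :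
    Tendsto (fun m => l m ^ 2 * (f.eval (t + ρ / (l m ^ 2 * A)) - f.eval t)) atTop (𝓝 ρ) := by
  obtain ⟨q, hq⟩ := tay2 f t
  have hl2 : Tendsto (fun m => l m ^ 2) atTop atTop :=
    (tendsto_pow_atTop two_ne_zero).comp hl
  have hinv : Tendsto (fun m => (l m ^ 2)⁻¹) atTop (𝓝 0) := hl2.inv_tendsto_atTop
  have hr : Tendsto (fun m => ρ / (l m ^ 2 * A)) atTop (𝓝 0) := by
    have h1 : Tendsto (fun m => (ρ / A) * (l m ^ 2)⁻¹) atTop (𝓝 ((ρ / A) * 0)) :=
      hinv.const_mul _
    rw [mul_zero] at h1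
    refine h1.congr fun m => ?_
    have := (hl0 m).ne'
    field_simp
  have hqr : Tendsto (fun m => q.eval (ρ / (l m ^ 2 * A))) atTop (𝓝 (q.eval 0)) :=
    (q.continuous.tendsto 0).comp hr
  have h2 : Tendsto (fun m => ρ + (ρ ^ 2 / A ^ 2) * (l m ^ 2)⁻¹ * q.eval (ρ / (l m ^ 2 * A)))
      atTop (𝓝 (ρ + (ρ ^ 2 / A ^ 2) * 0 * q.eval 0)) :=
    tendsto_const_nhds.add ((hinv.const_mul _).mul hqr)
  rw [mul_zero, zero_mul, add_zero] at h2
  refine h2.congr fun m => ?_
  have := (hl0 m).ne'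
  rw [hq, hfA]
  generalize q.eval (ρ / (l m ^ 2 * A)) = c
  field_simp
  ring

/-- `l (f (t + ρ / (l² A)) - f t) → 0` -/
theorem zoom0 (f : ℝ[X]) (t A ρ : ℝ) (hA : A ≠ 0)
    (l : ℕ → ℝ) (hl : Tendsto l atTop atTop) (hl0 : ∀ m, 0 < l m) :
    Tendsto (fun m => l m * (f.eval (t + ρ / (l m ^ 2 * A)) - f.eval t)) atTop (𝓝 0) := by
  obtain ⟨q, hq⟩ := tay2 f t
  have hl2 : Tendsto (fun m => l m ^ 2) atTop atTop :=
    (tendsto_pow_atTop two_ne_zero).comp hl
  have hinv : Tendsto (fun m => (l m ^ 2)⁻¹) atTop (𝓝 0) := hl2.inv_tendsto_atTop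
  have hinv1 : Tendsto (fun m => (l m)⁻¹) atTop (𝓝 0) := hl.inv_tendsto_atTop
  have hr : Tendsto (fun m => ρ / (l m ^ 2 * A)) atTop (𝓝 0) := by
    have h1 : Tendsto (fun m => (ρ / A) * (l m ^ 2)⁻¹) atTop (𝓝 ((ρ / A) * 0)) :=
      hinv.const_mul _
    rw [mul_zero] at h1
    refine h1.congr fun m => ?_
    have := (hl0 m).ne'
    field_simp
  have hqr : Tendsto (fun m => q.eval (ρ / (l m ^ 2 * A))) atTop (𝓝 (q.eval 0)) :=
    (q.continuous.tendsto 0).comp hr
  have h2 : Tendsto (fun m => (l m)⁻¹ * ((ρ / A) * (derivative f).eval t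
      + (ρ ^ 2 / A ^ 2) * (l m ^ 2)⁻¹ * q.eval (ρ / (l m ^ 2 * A))))
      atTop (𝓝 (0 * ((ρ / A) * (derivative f).eval t + (ρ ^ 2 / A ^ 2) * 0 * q.eval 0))) :=
    hinv1.mul (tendsto_const_nhds.add ((hinv.const_mul _).mul hqr))
  rw [zero_mul] at h2
  refine h2.congr fun m => ?_
  have := (hl0 m).ne'
  rw [hq]
  generalize q.eval (ρ / (l m ^ 2 * A)) = c
  field_simp
  ring

theorem limit3 (hNL : QL.NL_seqStatement) (hnd : QL.nd_pathStatement)
    (hray : QL.UAct_rayStatement) (hwt : QL.wt_genStatement) (hdiag : QL.ract_diagStatement) :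
    QL.limit3Statement := by
  intro S hS U hU Y hY x hx α hC
  obtain ⟨hα0, hαne, hcurve⟩ := hC
  -- a good time
  have hder : derivative α ≠ 0 := by
    intro h0
    apply hαne
    have h1 := Polynomial.derivative_eq_zero.1 h0
    rw [Polynomial.eq_C_of_natDegree_eq_zero h1] at hα0 ⊢
    rw [Polynomial.eval_C] at hα0
    rw [hα0, Polynomial.C_0]
  obtain ⟨t, ht0, htA⟩ : ∃ t : ℝ, 0 < t ∧ (derivative α).eval t ≠ 0 := by
    have hfin : Set.Finite {t : ℝ | (derivative α).eval t = 0} := by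
      refine (Polynomial.finite_setOfPred_isRoot hder).subset fun t ht => ?_
      exact ht
    by_contra hcon
    push Not at hcon
    exact (Set.Ioi_infinite (0 : ℝ)) (hfin.subset fun t ht => hcon t ht)
  set A := (derivative α).eval t with hA
  set β := α.eval t / 2 with hβ
  obtain ⟨z, hz, l, hl, hl0, s, γ, hγ, hlim⟩ := limit_gen hNL hnd hray hwt hdiag U N3 wt3 N3_cube
    N3_comm N3_wt (fun w => by rw [hU, u3_N]) a3_det (v3 β) x (v3_det β) (hY.det_one x hx)
    (fun w => by rw [hU, v3_u3]) [] trivial (fun R => ⟨0, fun l _ T hT => by simp at hT⟩)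
  refine ⟨z, hz.1, fun ρ => ?_⟩
  set tm : ℕ → ℝ := fun m => t + ρ / (l m ^ 2 * A) with htm
  have htmt : Tendsto tm atTop (𝓝 t) := by
    have hl2 : Tendsto (fun m => l m ^ 2) atTop atTop :=
      (tendsto_pow_atTop two_ne_zero).comp hl
    have hinv : Tendsto (fun m => (l m ^ 2)⁻¹) atTop (𝓝 0) := hl2.inv_tendsto_atTop
    have h1 : Tendsto (fun m => t + (ρ / A) * (l m ^ 2)⁻¹) atTop (𝓝 (t + (ρ / A) * 0)) :=
      tendsto_const_nhds.add (hinv.const_mul _)
    rw [mul_zero, add_zero] at h1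
    refine h1.congr fun m => ?_
    have := (hl0 m).ne'
    simp only [htm]
    field_simp
  have hpos : ∀ᶠ m in atTop, 0 < tm m := htmt.eventually_const_lt ht0
  have hpair : Tendsto (fun m => (Matrix.diagonal (fun j => (l m) ^ wt3 j) * v3 β * U.u (s m)
      * x * γ m, ((form3 1 (l m ^ 2 * (α.eval (tm m) - 2 * β)), (0 : Fin 3 → ℝ)) : W (Fin 3))))
      atTop (𝓝 (z, (form3 1 ρ, (0 : Fin 3 → ℝ)))) := by
    refine hlim.prodMk_nhds ?_
    have h1 : Tendsto (fun m => l m ^ 2 * (α.eval (tm m) - 2 * β)) atTop (𝓝 ρ) := by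
      have h2 := zoom1 α t A ρ htA rfl l hl hl0
      refine h2.congr fun m => ?_
      rw [hβ]
      ring
    rw [tendsto_co]
    rintro (⟨i, j⟩ | i)
    · fin_cases i <;> fin_cases j <;>
        first
        | exact h1
        | exact tendsto_const_nhds
    · exact tendsto_const_nhds
  refine (DD_closed hS).mem_of_tendsto hpair ?_
  filter_upwards [hpos] with m hm
  have hxm : U.u (s m) * x * γ m ∈ Y := hY.right _ (hγ m) _ (hY.left _ _ hx)
  have h1 := hcurve (tm m) hm _ hxm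
  have h2 := DD_left h1 (h3_mul (l m) β (hl0 m).ne')
  rw [form3_act (l m) β _ (hl0 m).ne'] at h2
  have h3 : a3 (l m) * v3 β * (U.u (s m) * x * γ m) =
      Matrix.diagonal (fun j => (l m) ^ wt3 j) * v3 β * U.u (s m) * x * γ m := by
    rw [a3_diag]
    simp only [Matrix.mul_assoc]
  rw [h3] at h2
  exact h2

end QL.H60
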