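import Pool.Agent.Helper60_QL.Goodt4

/-!
# QL module limit4, helper60
-/

set_option autoImplicit false
set_option linter.unusedSimpArgs false
open Matrix Polynomial MeasureTheory Set Filter Topology

namespace QL.H60

/-- `l (g (t + ρ / l) - g t) → ρ g' t` -/
theorem zoomA (g : ℝ[X]) (t ρ : ℝ) (l : ℕ → ℝ) (hl : Tendsto l atTop atTop)
    (hl0 : ∀ m, 0 < l m) :
    Tendsto (fun m => l m * (g.eval (t + ρ / l m) - g.eval t)) atTop
      (𝓝 (ρ * (derivative g).eval t)) := by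
  obtain ⟨q, hq⟩ := tay2 g t
  have hinv : Tendsto (fun m => (l m)⁻¹) atTop (𝓝 0) := hl.inv_tendsto_atTop
  have hr : Tendsto (fun m => ρ / l m) atTop (𝓝 0) := by
    have h1 : Tendsto (fun m => ρ * (l m)⁻¹) atTop (𝓝 (ρ * 0)) := hinv.const_mul _
    rw [mul_zero] at h1
    exact h1
  have hqr : Tendsto (fun m => q.eval (ρ / l m)) atTop (𝓝 (q.eval 0)) :=
    (q.continuous.tendsto 0).comp hr
  have h2 : Tendsto (fun m => ρ * (derivative g).eval t + ρ ^ 2 * (l m)⁻¹ * q.eval (ρ / l m))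
      atTop (𝓝 (ρ * (derivative g).eval t + ρ ^ 2 * 0 * q.eval 0)) :=
    tendsto_const_nhds.add ((hinv.const_mul _).mul hqr)
  rw [mul_zero, zero_mul, add_zero] at h2
  refine h2.congr fun m => ?_
  have := (hl0 m).ne'
  rw [hq]
  generalize q.eval (ρ / l m) = c
  field_simp
  ring

/-- `l² (f (t + ρ / l) - f t) → ρ² f'' t / 2` when `f' t = 0` -/
theorem zoomB (f : ℝ[X]) (t ρ : ℝ) (hf : (derivative f).eval t = 0) (l : ℕ → ℝ)
    (hl : Tendsto l atTop atTop) (hl0 : ∀ m, 0 < l m) :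
    Tendsto (fun m => l m ^ 2 * (f.eval (t + ρ / l m) - f.eval t)) atTop
      (𝓝 (ρ ^ 2 * ((derivative (derivative f)).eval t / 2))) := by
  obtain ⟨q, hq⟩ := tay3 f t
  have hinv : Tendsto (fun m => (l m)⁻¹) atTop (𝓝 0) := hl.inv_tendsto_atTop
  have hr : Tendsto (fun m => ρ / l m) atTop (𝓝 0) := by
    have h1 : Tendsto (fun m => ρ * (l m)⁻¹) atTop (𝓝 (ρ * 0)) := hinv.const_mul _
    rw [mul_zero] at h1
    exact h1
  have hqr : Tendsto (fun m => q.eval (ρ / l m)) atTop (𝓝 (q.eval 0)) :=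
    (q.continuous.tendsto 0).comp hr
  have h2 : Tendsto (fun m => ρ ^ 2 * ((derivative (derivative f)).eval t / 2) +
      ρ ^ 3 * (l m)⁻¹ * q.eval (ρ / l m)) atTop
      (𝓝 (ρ ^ 2 * ((derivative (derivative f)).eval t / 2) + ρ ^ 3 * 0 * q.eval 0)) :=
    tendsto_const_nhds.add ((hinv.const_mul _).mul hqr)
  rw [mul_zero, zero_mul, add_zero] at h2
  refine h2.congr fun m => ?_
  have := (hl0 m).ne'
  rw [hq, hf]
  generalize q.eval (ρ / l m) = c
  generalize (derivative (derivative f)).eval t = e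
  field_simp
  ring

theorem n4_mul (b μ α b' μ' α' : ℝ) :
    n4 b μ α * n4 b' μ' α' = n4 (b + b') (μ + μ') (α + α' + μ * b') := by
  ext i j
  fin_cases i <;> fin_cases j <;>
    (simp [n4, Matrix.mul_apply, Fin.sum_univ_four]; try ring)

theorem n4_u4 (b μ α t : ℝ) : n4 b μ α * u4 t = u4 t * n4 b μ α := by
  ext i j
  fin_cases i <;> fin_cases j <;>
    (simp [n4, u4, Matrix.mul_apply, Fin.sum_univ_four]; try ring)

theorem n4_zero : n4 0 0 0 = 1 := by
  ext i j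
  fin_cases i <;> fin_cases j <;> simp [n4]

theorem n4_det (b μ α : ℝ) : (n4 b μ α).det = 1 := by
  rw [Matrix.det_succ_row_zero]
  simp [Fin.sum_univ_four, n4, Matrix.det_fin_three, Matrix.submatrix_apply, Fin.succAbove]

theorem n4_a4 (l b μ α : ℝ) (hl : l ≠ 0) :
    n4 b μ α * a4 l⁻¹ = a4 l⁻¹ * n4 (l * b) (l * μ) (l ^ 2 * α) := by
  ext i j
  fin_cases i <;> fin_cases j <;>
    (simp [n4, a4, Matrix.mul_apply, Fin.sum_univ_four]; try field_simp)

theorem a4_p4 (l : ℝ) (hl : l ≠ 0) : act p4 (a4 l) = p4 := by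
  refine Prod.ext ?_ ?_
  · ext i j
    fin_cases i <;> fin_cases j <;>
      simp [act, p4, B4, a4, Matrix.mul_apply, Fin.sum_univ_four, hl]
  · funext i
    fin_cases i <;> simp [act, p4, L4, a4]

theorem a4_inv (l : ℝ) (hl : l ≠ 0) : a4 l⁻¹ * a4 l = 1 := by
  ext i j
  fin_cases i <;> fin_cases j <;>
    simp [a4, Matrix.mul_apply, Fin.sum_univ_four, hl]

/-- the moved pair -/
theorem move4 (l b μ α b0 μ0 α0 : ℝ) (hl : l ≠ 0) :
    act (act p4 (n4 b μ α)) (n4 (-b0) (-μ0) (-α0 + μ0 * b0) * a4 l⁻¹) =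
      act p4 (n4 (l * (b - b0)) (l * (μ - μ0)) (l ^ 2 * (α - α0 + μ0 * b0 - μ * b0))) := by
  rw [act_act, ← Matrix.mul_assoc, n4_mul, n4_a4 _ _ _ _ hl, ← act_act, a4_p4 _ (inv_ne_zero hl)]
  congr 2
  ring

theorem move4_inv (l b0 μ0 α0 : ℝ) (hl : l ≠ 0) :
    n4 (-b0) (-μ0) (-α0 + μ0 * b0) * a4 l⁻¹ * (a4 l * n4 b0 μ0 α0) = 1 := by
  calc n4 (-b0) (-μ0) (-α0 + μ0 * b0) * a4 l⁻¹ * (a4 l * n4 b0 μ0 α0)
      = n4 (-b0) (-μ0) (-α0 + μ0 * b0) * (a4 l⁻¹ * a4 l) * n4 b0 μ0 α0 := by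
        simp only [Matrix.mul_assoc]
    _ = 1 := by
        rw [a4_inv l hl, Matrix.mul_one, n4_mul]
        have h1 : -b0 + b0 = 0 := by ring
        have h2 : -μ0 + μ0 = 0 := by ring
        have h3 : -α0 + μ0 * b0 + α0 + -μ0 * b0 = 0 := by ring
        rw [h1, h2, h3, n4_zero]

theorem act_n4_tendsto {b μ α : ℕ → ℝ} {b' μ' α' : ℝ} (hb : Tendsto b atTop (𝓝 b'))
    (hμ : Tendsto μ atTop (𝓝 μ')) (hα : Tendsto α atTop (𝓝 α')) :
    Tendsto (fun m => act p4 (n4 (b m) (μ m) (α m))) atTop (𝓝 (act p4 (n4 b' μ' α'))) := by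
  simp only [act_n4]
  rw [tendsto_co]
  have h2α : Tendsto (fun m => 2 * α m) atTop (𝓝 (2 * α')) := hα.const_mul 2
  rintro (⟨i, j⟩ | i)
  · fin_cases i <;> fin_cases j <;>
      first
      | exact tendsto_const_nhds
      | exact hμ
      | exact h2α
  · fin_cases i <;>
      first
      | exact tendsto_const_nhds
      | exact hb

theorem zoom4 (S : Set (ℝ × ℝ)) (hS : IsClosed S) (U : UAct (Fin 4) 1)
    (Y : Set (Matrix (Fin 4) (Fin 4) ℝ)) (hY : Inv U Y) (x : Matrix (Fin 4) (Fin 4) ℝ)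
    (hx : x ∈ Y) (b μ α : ℝ[X])
    (hcurve : ∀ t > 0, ∀ x' ∈ Y, (x', act p4 (n4 (b.eval t) (μ.eval t) (α.eval t))) ∈ DD S)
    (t : ℝ) (ht : 0 < t) (l : ℕ → ℝ) (hl0 : ∀ m, 0 < l m) (s : ℕ → Fin 1 → ℝ)
    (γ : ℕ → Matrix (Fin 4) (Fin 4) ℝ) (hγ : ∀ m, γ m ∈ Gam (Fin 4))
    (z : Matrix (Fin 4) (Fin 4) ℝ)
    (hlim : Tendsto (fun m => Matrix.diagonal (fun j => (l m) ^ wt4 j) *
      n4 (b.eval t) (μ.eval t) (α.eval t) * U.u (s m) * x * γ m) atTop (𝓝 z))
    (tm : ℕ → ℝ) (htm : Tendsto tm atTop (𝓝 t)) (B M A : ℝ)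
    (hB : Tendsto (fun m => l m * (b.eval (tm m) - b.eval t)) atTop (𝓝 B))
    (hM : Tendsto (fun m => l m * (μ.eval (tm m) - μ.eval t)) atTop (𝓝 M))
    (hA : Tendsto (fun m => l m ^ 2 * ((α - C (b.eval t) * μ).eval (tm m) -
      (α - C (b.eval t) * μ).eval t)) atTop (𝓝 A)) :
    (z, act p4 (n4 B M A)) ∈ DD S := by
  have hpair := hlim.prodMk_nhds (act_n4_tendsto hB hM hA)
  have hpos : ∀ᶠ m in atTop, 0 < tm m := htm.eventually_const_lt ht
  refine (DD_closed hS).mem_of_tendsto hpair ?_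
  filter_upwards [hpos] with m hm
  have hxm : U.u (s m) * x * γ m ∈ Y := hY.right _ (hγ m) _ (hY.left _ _ hx)
  have h1 := hcurve (tm m) hm _ hxm
  have h2 := DD_left h1 (move4_inv (l m) (b.eval t) (μ.eval t) (α.eval t) (hl0 m).ne')
  rw [move4 (l m) _ _ _ _ _ _ (hl0 m).ne'] at h2
  have h3 : a4 (l m) * n4 (b.eval t) (μ.eval t) (α.eval t) * (U.u (s m) * x * γ m) =
      Matrix.diagonal (fun j => (l m) ^ wt4 j) * n4 (b.eval t) (μ.eval t) (α.eval t) *
        U.u (s m) * x * γ m := by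
    rw [a4_diag]
    simp only [Matrix.mul_assoc]
  rw [h3] at h2
  have h4 : l m ^ 2 * (α.eval (tm m) - α.eval t + μ.eval t * b.eval t -
      μ.eval (tm m) * b.eval t) = l m ^ 2 * ((α - C (b.eval t) * μ).eval (tm m) -
      (α - C (b.eval t) * μ).eval t) := by
    simp only [Polynomial.eval_sub, Polynomial.eval_mul, Polynomial.eval_C]
    ring
  rw [h4] at h2
  exact h2

theorem limit4 (hNL : QL.NL_seqStatement) (hnd : QL.nd_pathStatement)
    (hray : QL.UAct_rayStatement) (hwt : QL.wt_genStatement) (hdiag : QL.ract_diagStatement)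
    (hTL : QL.TL4_factsStatement) : QL.limit4Statement := by
  intro S hS U hU Y hY x hx b μ α hC
  obtain ⟨hxY, hxns⟩ := hx
  obtain ⟨hb0, hμ0, hα0, hne, hcurve⟩ := hC
  obtain ⟨t, ht, hg1, hg2, hvel⟩ := goodt4 hTL x hxns b μ α hb0 hμ0 hα0 hne
  set n : Matrix (Fin 4) (Fin 4) ℝ := n4 (b.eval t) (μ.eval t) (α.eval t) with hn
  have hxdet : x.det = 1 := hY.det_one x hxY
  have hnx : (n * x).det = 1 := by rw [Matrix.det_mul, hn, n4_det, hxdet, one_mul]
  have hgrow := grow4 hwt hdiag (n * x) hnx hg1 hg2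
  obtain ⟨z, hz, l, hl, hl0, s, γ, hγ, hlim⟩ := limit_gen hNL hnd hray hwt hdiag U N4 wt4 N4_cube
    N4_comm N4_wt (fun w => by rw [hU, u4_N]) a4_det n x (n4_det _ _ _) hxdet
    (fun w => by rw [hU, hn, n4_u4]) TL4 hTL.1 (by
      intro R
      obtain ⟨l0, hl0⟩ := hgrow R
      refine ⟨l0, fun l hl T hT w hw hfix => ?_⟩
      rw [← a4_diag]
      refine hl0 l hl T hT w hw fun t' => ?_
      have := hfix (fun _ => t')
      rwa [hU] at this)
  refine ⟨z, hz, ?_⟩
  have hl2 : Tendsto (fun m => l m ^ 2) atTop atTop :=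
    (tendsto_pow_atTop two_ne_zero).comp hl
  rcases hvel with hvel | ⟨hA0, hvel⟩
  · left
    intro ρ
    set A : ℝ := (derivative (α - C (b.eval t) * μ)).eval t with hA
    have hAne : A ≠ 0 := by
      rw [hA]
      simp only [Polynomial.derivative_sub, Polynomial.derivative_mul, Polynomial.derivative_C,
        zero_mul, zero_add, Polynomial.eval_sub, Polynomial.eval_mul, Polynomial.eval_C]
      intro h
      apply hvel
      linarith
    have hinv : Tendsto (fun m => (l m ^ 2)⁻¹) atTop (𝓝 0) := hl2.inv_tendsto_atTop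
    have htm : Tendsto (fun m => t + ρ / (l m ^ 2 * A)) atTop (𝓝 t) := by
      have h1 : Tendsto (fun m => t + (ρ / A) * (l m ^ 2)⁻¹) atTop (𝓝 (t + (ρ / A) * 0)) :=
        tendsto_const_nhds.add (hinv.const_mul _)
      rw [mul_zero, add_zero] at h1
      refine h1.congr fun m => ?_
      have := (hl0 m).ne'
      field_simp
    exact zoom4 S hS U Y hY x hxY b μ α hcurve t ht l hl0 s γ hγ z hlim _ htm 0 0 ρ
      (zoom0 b t A ρ hAne l hl hl0) (zoom0 μ t A ρ hAne l hl hl0)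
      (zoom1 _ t A ρ hAne rfl l hl hl0)
  · right
    refine ⟨(derivative b).eval t, (derivative μ).eval t, hvel, fun ρ => ?_⟩
    have hinv : Tendsto (fun m => (l m)⁻¹) atTop (𝓝 0) := hl.inv_tendsto_atTop
    have htm : Tendsto (fun m => t + ρ / l m) atTop (𝓝 t) := by
      have h1 : Tendsto (fun m => t + ρ * (l m)⁻¹) atTop (𝓝 (t + ρ * 0)) :=
        tendsto_const_nhds.add (hinv.const_mul _)
      rw [mul_zero, add_zero] at h1
      exact h1
    have hf1 : (derivative (α - C (b.eval t) * μ)).eval t = 0 := by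
      simp only [Polynomial.derivative_sub, Polynomial.derivative_mul, Polynomial.derivative_C,
        zero_mul, zero_add, Polynomial.eval_sub, Polynomial.eval_mul, Polynomial.eval_C, hA0]
      ring
    have hf2 : (derivative (derivative (α - C (b.eval t) * μ))).eval t =
        (derivative μ).eval t * (derivative b).eval t := by
      simp only [Polynomial.derivative_sub, Polynomial.derivative_mul, Polynomial.derivative_C,
        zero_mul, zero_add, Polynomial.eval_sub, Polynomial.eval_mul, Polynomial.eval_C, hA0,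
        Polynomial.eval_add]
      ring
    have hB := zoomB (α - C (b.eval t) * μ) t ρ hf1 l hl hl0
    rw [hf2] at hB
    have h5 : ρ ^ 2 * ((derivative μ).eval t * (derivative b).eval t / 2) =
        ρ ^ 2 * (derivative b).eval t * (derivative μ).eval t / 2 := by ring
    rw [h5] at hB
    exact zoom4 S hS U Y hY x hxY b μ α hcurve t ht l hl0 s γ hγ z hlim _ htm _ _ _
      (zoomA b t ρ l hl hl0) (zoomA μ t ρ l hl hl0) hB

end QL.H60
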