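import Pool.Agent.Helper60_QL.Growth
import Pool.Agent.Helper27_QL.StmtApp12

/-!
# QL: the module statements proved in `Basic`, `Drift`, `Growth`, helper60
-/

set_option autoImplicit false
open Matrix Polynomial MeasureTheory Set Filter Topology

namespace QL.H60

theorem val_act_stmt : QL.val_actStatement := fun q g v => val_act q g v
theorem act_act_stmt : QL.act_actStatement := fun q g h => act_act q g h
theorem gam_mul_prm_stmt : QL.gam_mul_prmStatement := fun hγ _ hv => gam_mul_prm hγ hv
theorem gam_mul_stmt : QL.gam_mulStatement := fun h h' => gam_mul h h'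
theorem gam_inv_stmt : QL.gam_invStatement := fun h => gam_inv h
theorem DD_gam_stmt : QL.DD_gamStatement := fun h _ hγ => DD_gam h hγ
theorem DD_left_stmt : QL.DD_leftStatement := fun hx hgh => DD_left hx hgh
theorem DD_closed_stmt : QL.DD_closedStatement := fun hS => DD_closed hS
theorem drift_stmt : QL.driftStatement :=
  fun U S hS Y x hret q p hq hlim hnf hp => drift U S hS Y x hret q p hq hlim hnf hp
theorem goodDir_dense_stmt : QL.goodDir_denseStatement := fun U x hx => goodDir_dense U x hx
theorem growth_stmt : QL.growthStatement :=
  fun U x g0 hx hg θ hθ b k R => growth U x g0 hx hg θ hθ b k R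
theorem pl_mul_stmt : QL.pl_mulStatement := fun g A => pl_mul g A

end QL.H60
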