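import Pool.Agent.Helper60_QL.Final

/-!
# QL: the general limit step, helper60
-/

set_option autoImplicit false
open Matrix Polynomial MeasureTheory Set Filter Topology

namespace QL.H60

/-- integer tensors are uniformly away from zero -/
theorem disc {ι : Type} [Fintype ι] [DecidableEq ι] (b : Bool) (k : ℕ) (h : Matrix ι ι ℝ)
    (hh : h.det = 1) : ∃ κ : ℝ, 0 < κ ∧ ∀ w : (Fin k → ι) → ℤ, w ≠ 0 →
      ∃ c, κ ≤ |ract b k h (iv w) c| := by
  classical
  set M := tens k (rm b h⁻¹) with hM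
  set B : ℝ := 1 + ∑ i, ∑ j, |M i j| with hB
  have hBpos : 0 < B := by
    have : 0 ≤ ∑ i, ∑ j, |M i j| :=
      Finset.sum_nonneg fun i _ => Finset.sum_nonneg fun j _ => abs_nonneg _
    linarith
  refine ⟨B⁻¹, inv_pos.2 hBpos, fun w hw => ?_⟩
  by_contra hcon
  push Not at hcon
  obtain ⟨i, hi⟩ := Function.ne_iff.1 hw
  have h1 : iv w = M *ᵥ (ract b k h (iv w)) := (ract_inj b k h hh (iv w)).symm
  have h2 : (w i : ℝ) = ∑ j, M i j * ract b k h (iv w) j := by
    have := congrFun h1 i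
    simpa [iv, Matrix.mulVec, dotProduct] using this
  have h3 : (1 : ℝ) ≤ |(w i : ℝ)| := by
    have : (1 : ℤ) ≤ |w i| := Int.one_le_abs hi
    exact_mod_cast this
  have h4 : |(w i : ℝ)| ≤ (∑ j, |M i j|) * B⁻¹ := by
    rw [h2, Finset.sum_mul]
    refine (Finset.abs_sum_le_sum_abs _ _).trans (Finset.sum_le_sum fun j _ => ?_)
    rw [abs_mul]
    exact mul_le_mul_of_nonneg_left (hcon j).le (abs_nonneg _)
  have h5 : ∑ j, |M i j| ≤ ∑ i, ∑ j, |M i j| :=
    Finset.single_le_sum (f := fun i => ∑ j, |M i j|)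
      (fun i _ => Finset.sum_nonneg fun j _ => abs_nonneg _) (Finset.mem_univ i)
  have h6 : (∑ j, |M i j|) < B := by
    rw [hB]
    linarith
  have h7 : (∑ j, |M i j|) * B⁻¹ < 1 := by
    rw [← div_eq_mul_inv, div_lt_one hBpos]
    exact h6
  linarith

/-- the Pluecker vector of an integer matrix is integer -/
theorem pl_int {ι : Type} {k : ℕ} (A : Matrix ι (Fin k) ℤ) :
    pl (im A) = iv (fun i => (A.submatrix i id).det) := by
  funext i
  change ((im A).submatrix i id).det = (((A.submatrix i id).det : ℤ) : ℝ)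
  rw [Int.cast_det]
  rfl

/-- one uniform constant for all Pluecker vectors -/
theorem disc_all {ι : Type} [Fintype ι] [DecidableEq ι] (b : Bool) (K : ℕ) (h : Matrix ι ι ℝ)
    (hh : h.det = 1) : ∃ κ : ℝ, 0 < κ ∧ ∀ k < K, ∀ w : (Fin k → ι) → ℤ, w ≠ 0 →
      ∃ c, κ ≤ |ract b k h (iv w) c| := by
  induction K with
  | zero => exact ⟨1, one_pos, fun k hk => absurd hk (Nat.not_lt_zero k)⟩
  | succ K ih =>
    obtain ⟨κ1, h1, h1'⟩ := ih
    obtain ⟨κ2, h2, h2'⟩ := disc b K h hh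
    refine ⟨min κ1 κ2, lt_min h1 h2, fun k hk w hw => ?_⟩
    rcases Nat.lt_succ_iff_lt_or_eq.1 hk with hk | hk
    · obtain ⟨c, hc⟩ := h1' k hk w hw
      exact ⟨c, (min_le_left _ _).trans hc⟩
    · subst hk
      obtain ⟨c, hc⟩ := h2' w hw
      exact ⟨c, (min_le_right _ _).trans hc⟩

/-- the general limit step: a point `z` outside the tubes -/
theorem limit_gen (hNL : QL.NL_seqStatement) (hnd : QL.nd_pathStatement)
    (hray : QL.UAct_rayStatement) (hwt : QL.wt_genStatement) (hdiag : QL.ract_diagStatement)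
    {ι : Type} [Fintype ι] [DecidableEq ι] [Nonempty ι] (U : UAct ι 1) (N : Matrix ι ι ℝ)
    (wt : ι → ℤ) (hN3 : N * N * N = 0)
    (hc : N * Nᵀ - Nᵀ * N = Matrix.diagonal (fun i => (wt i : ℝ)))
    (hr : ∀ i j, N i j ≠ 0 → wt i = wt j + 1)
    (hU : ∀ w, U.u w = 1 + w 0 • N + ((w 0)^2/2) • (N * N))
    (hdet : ∀ l : ℝ, 0 < l → (Matrix.diagonal (fun j => l ^ wt j)).det = 1)
    (n x : Matrix ι ι ℝ) (hn : n.det = 1) (hx : x.det = 1) (hcomm : ∀ w, n * U.u w = U.u w * n)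
    (L : List (Tube ι)) (hL : UniqL L)
    (hgrow : ∀ R : ℝ, ∃ l0 : ℝ, ∀ l ≥ l0, ∀ T ∈ L, ∀ w : (Fin T.k → ι) → ℤ, w ≠ 0 →
      (∀ w', ract false T.k (U.u w') (ract false T.k (n * x) (iv w)) =
        ract false T.k (n * x) (iv w)) →
      ∃ c, R ≤ |ract false T.k (Matrix.diagonal (fun j => l ^ wt j) * (n * x)) (iv w) c|) :
    ∃ z ∈ ns L, ∃ l : ℕ → ℝ, Tendsto l atTop atTop ∧ (∀ m, 0 < l m) ∧ ∃ s : ℕ → Fin 1 → ℝ,
      ∃ γ : ℕ → Matrix ι ι ℝ, (∀ m, γ m ∈ Gam ι) ∧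
      Tendsto (fun m => Matrix.diagonal (fun j => (l m) ^ wt j) * n * U.u (s m) * x * γ m)
        atTop (𝓝 z) := by
  classical
  obtain ⟨θ, hθ⟩ := (goodDir_dense U x hx).nonempty
  obtain ⟨D, hD⟩ := hray U
  have hnx : (n * x).det = 1 := by rw [Matrix.det_mul, hn, hx, one_mul]
  obtain ⟨κ, hκ, hκ'⟩ := disc_all true (Fintype.card ι) (n * x) hnx
  set l : ℕ → ℝ := fun m => (m : ℝ) + 1 with hl
  have hl1 : ∀ m, 1 ≤ l m := fun m => by simp [hl]
  have hl0 : ∀ m, 0 < l m := fun m => lt_of_lt_of_le one_pos (hl1 m)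
  have hlt : Tendsto l atTop atTop :=
    tendsto_atTop_add_const_right _ _ tendsto_natCast_atTop_atTop
  set g0 : ℕ → Matrix ι ι ℝ := fun m => Matrix.diagonal (fun j => (l m) ^ wt j) * n with hg0
  have hg0det : ∀ m, (g0 m).det = 1 := fun m => by
    simp only [hg0]
    rw [Matrix.det_mul, hdet _ (hl0 m), hn, one_mul]
  -- Pluecker vectors of fixed rational subspaces do not shrink
  have hfix : ∀ m, ∀ k : ℕ, 0 < k → k < Fintype.card ι → ∀ A : Matrix ι (Fin k) ℤ,
      (∃ i : Fin k → ι, (A.submatrix i id).det ≠ 0) →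
      (∀ w, ∀ i : Fin k → ι, ((U.u w * (x * im A)).submatrix i id).det =
        ((x * im A).submatrix i id).det) →
      ∃ i : Fin k → ι, κ ≤ |((g0 m * (x * im A)).submatrix i id).det| := by
    intro m k hk0 hk A hA hfixA
    set w : (Fin k → ι) → ℤ := fun i => (A.submatrix i id).det with hw
    have hw0 : w ≠ 0 := by
      obtain ⟨i, hi⟩ := hA
      intro h0
      exact hi (congrFun h0 i)
    obtain ⟨c, hc'⟩ := hκ' k hk w hw0
    set v : (Fin k → ι) → ℝ := ract true k (n * x) (iv w) with hv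
    have hplx : pl (x * im A) = ract true k x (iv w) := by
      rw [← pl_int]
      exact pl_mul x (im A)
    have hfixx : ∀ w', ract true k (U.u w') (ract true k x (iv w)) = ract true k x (iv w) := by
      intro w'
      rw [← hplx]
      have h1 : pl (U.u w' * (x * im A)) = ract true k (U.u w') (pl (x * im A)) :=
        pl_mul (U.u w') (x * im A)
      rw [← h1]
      funext i
      exact hfixA w' i
    have hvfix : ∀ w', ract true k (U.u w') v = v := by
      intro w'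
      rw [hv, ract_mul, ← ract_mul, ← hcomm, ract_mul, hfixx]
    have hvfix2 : ∀ t : ℝ, ract true k (1 + t • N + (t^2/2) • (N * N)) v = v := by
      intro t
      have := hvfix (fun _ => t)
      rwa [hU] at this
    have hsupp := hwt N wt hN3 hc hr true k v hvfix2
    refine ⟨c, ?_⟩
    have h2 : pl (g0 m * (x * im A)) c = ((g0 m * (x * im A)).submatrix c id).det := rfl
    rw [← h2]
    have h3 : pl (g0 m * (x * im A)) = ract true k (Matrix.diagonal (fun j => (l m) ^ wt j)) v := by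
      have h4 : pl (g0 m * (x * im A)) = ract true k (g0 m) (pl (x * im A)) :=
        pl_mul (g0 m) (x * im A)
      rw [h4, hplx, hv, hg0, ract_mul, ract_mul]
    rw [h3, hdiag wt (l m) (hl0 m) true k v c]
    simp only [if_true]
    have hvc : v c ≠ 0 := by
      intro h0
      rw [h0, abs_zero] at hc'
      linarith
    have hwtc : 0 ≤ ∑ a, wt (c a) := by
      by_contra hneg
      push Not at hneg
      exact hvc (hsupp c (by simpa using hneg))
    rw [abs_mul, abs_of_pos (zpow_pos (hl0 m) _)]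
    have h5 : 1 ≤ (l m) ^ (∑ a, wt (c a)) := one_le_zpow₀ (hl1 m) hwtc
    calc κ ≤ |v c| := hc'
      _ = 1 * |v c| := (one_mul _).symm
      _ ≤ (l m) ^ (∑ a, wt (c a)) * |v c| := mul_le_mul_of_nonneg_right h5 (abs_nonneg _)
  -- times
  have hT : ∀ m : ℕ, ∃ T : ℝ, ND κ (fun τ => g0 m * U.u ((τ * T) • θ) * x) ∧
      ∀ Tb ∈ L, ∀ w : (Fin Tb.k → ι) → ℤ,
        (∃ w', ract false Tb.k (U.u w') (ract false Tb.k x (iv w)) ≠ ract false Tb.k x (iv w)) →
        ∃ τ ∈ Icc (0 : ℝ) 1, ∃ c,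
          (m : ℝ) ≤ |ract false Tb.k (g0 m * U.u ((τ * T) • θ) * x) (iv w) c| := by
    intro m
    obtain ⟨T1, hT1⟩ := hnd U x (g0 m) hx (hg0det m) θ hθ κ (hfix m)
    have hgr : ∀ k : ℕ, ∃ T0 : ℝ, ∀ T ≥ T0,
        ∀ w : (Fin k → ι) → ℤ, (∃ w', ract false k (U.u w') (ract false k x (iv w)) ≠
          ract false k x (iv w)) →
        ∃ τ ∈ Icc (0 : ℝ) 1, ∃ c, (m : ℝ) ≤
          |ract false k (g0 m * U.u ((τ * T) • θ) * x) (iv w) c| :=
      fun k => growth U x (g0 m) hx (hg0det m) θ hθ false k (m : ℝ)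
    choose T2 hT2 using hgr
    obtain ⟨T3, hT3⟩ : ∃ T3 : ℝ, ∀ Tb ∈ L, T2 Tb.k ≤ T3 := by
      have hfin : Set.Finite {Tb | Tb ∈ L} := List.finite_toSet L
      obtain ⟨T3, hT3⟩ := (hfin.image fun Tb => T2 Tb.k).bddAbove
      exact ⟨T3, fun Tb hTb => hT3 ⟨Tb, hTb, rfl⟩⟩
    refine ⟨max T1 T3, hT1 _ (le_max_left _ _), fun Tb hTb w hw => ?_⟩
    exact hT2 Tb.k (max T1 T3) ((hT3 Tb hTb).trans (le_max_right _ _)) w hw
  choose T hTND hTgrow using hT
  have hP : ∀ m, ∃ P : Matrix ι ι ℝ[X], (∀ i j, (P i j).natDegree ≤ D) ∧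
      ∀ τ, ev P τ = g0 m * U.u ((τ * T m) • θ) * x := fun m => hD (g0 m) x θ (T m)
  choose P hPdeg hPev using hP
  have hPdet : ∀ m τ, (ev (P m) τ).det = 1 := by
    intro m τ
    rw [hPev, Matrix.det_mul, Matrix.det_mul, hg0det, U.det_one, hx, one_mul, one_mul]
  have hPND : ∀ m, ND κ (ev (P m)) := by
    intro m
    have h1 : ev (P m) = fun τ => g0 m * U.u ((τ * T m) • θ) * x := funext fun τ => hPev m τ
    rw [h1]
    exact hTND m
  obtain ⟨z, hz, f, hf, τ, hτ, γ, hγ, hlim⟩ := hNL ι L hL D κ hκ P hPdeg hPdet hPND (by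
    intro R
    obtain ⟨l1, hl1'⟩ := hgrow R
    obtain ⟨m0, hm0⟩ := ((hlt.eventually_ge_atTop l1).and
      (tendsto_natCast_atTop_atTop.eventually_ge_atTop R)).exists_forall_of_atTop
    refine ⟨m0, fun m hm Tb hTb w hw => ?_⟩
    obtain ⟨hml, hmR⟩ := hm0 m hm
    by_cases hfx : ∃ w', ract false Tb.k (U.u w') (ract false Tb.k x (iv w)) ≠
        ract false Tb.k x (iv w)
    · obtain ⟨τ, hτ, c, hc'⟩ := hTgrow m Tb hTb w hfx
      refine ⟨τ, hτ, c, ?_⟩
      rw [hPev]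
      exact hmR.trans hc'
    · push Not at hfx
      refine ⟨0, ⟨le_rfl, zero_le_one⟩, ?_⟩
      have hfx2 : ∀ w', ract false Tb.k (U.u w') (ract false Tb.k (n * x) (iv w)) =
          ract false Tb.k (n * x) (iv w) := by
        intro w'
        rw [ract_mul, ← ract_mul, ← hcomm, ract_mul, hfx]
      obtain ⟨c, hc'⟩ := hl1' (l m) hml Tb hTb w hw hfx2
      refine ⟨c, ?_⟩
      rw [hPev, zero_mul, zero_smul, u_zero, mul_one]
      simp only [hg0]
      rw [Matrix.mul_assoc]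
      exact hc')
  refine ⟨z, hz, fun m => l (f m), hlt.comp hf.tendsto_atTop, fun m => hl0 _,
    fun m => (τ m * T (f m)) • θ, γ, hγ, ?_⟩
  refine hlim.congr fun m => ?_
  rw [hPev]

end QL.H60
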