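import Pool.Agent.Helper60_QL.Basic

/-!
# QL module M7 (drift), helper60
-/

set_option autoImplicit false
open Matrix Polynomial MeasureTheory Set Filter Topology

namespace QL.H60

/-- rescaling lemma: finitely many coordinates `c i j` with weights `k j`; those of nonzero weight
tend to zero, and for each `i` one of them is nonzero. -/
theorem rescale {J : Type*} [Fintype J] (k : J → ℕ) (c : ℕ → J → ℝ) (c0 : J → ℝ)
    (h0 : ∀ j, k j = 0 → Tendsto (fun i => c i j) atTop (𝓝 (c0 j)))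
    (h1 : ∀ j, k j ≠ 0 → Tendsto (fun i => c i j) atTop (𝓝 0))
    (hne : ∀ i, ∃ j, k j ≠ 0 ∧ c i j ≠ 0) :
    ∃ T : ℕ → ℝ, (∀ i, 0 < T i) ∧ Tendsto T atTop atTop ∧ ∃ f : ℕ → ℕ, StrictMono f ∧
      ∃ C : J → ℝ, (∀ j, Tendsto (fun i => T (f i) ^ k j * c (f i) j) atTop (𝓝 (C j))) ∧
        ∃ j, k j ≠ 0 ∧ C j ≠ 0 := by
  classical
  -- the size of a coordinate
  set a : ℕ → J → ℝ := fun i j => if k j = 0 then 0 else |c i j| ^ ((k j : ℝ)⁻¹) with ha
  have ha0 : ∀ i j, 0 ≤ a i j := by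
    intro i j
    simp only [ha]
    split_ifs
    · exact le_rfl
    · exact Real.rpow_nonneg (abs_nonneg _) _
  have hapow : ∀ i j, k j ≠ 0 → (a i j) ^ (k j) = |c i j| := by
    intro i j hj
    simp only [ha, if_neg hj]
    exact Real.rpow_inv_natCast_pow (abs_nonneg _) hj
  have hatend : ∀ j, Tendsto (fun i => a i j) atTop (𝓝 0) := by
    intro j
    by_cases hj : k j = 0
    · simp only [ha, if_pos hj]
      exact tendsto_const_nhds
    · simp only [ha, if_neg hj]
      have h2 : Tendsto (fun i => |c i j|) atTop (𝓝 0) := by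
        simpa using (h1 j hj).abs
      have h3 : Tendsto (fun x : ℝ => x ^ ((k j : ℝ)⁻¹)) (𝓝 0) (𝓝 ((0 : ℝ) ^ ((k j : ℝ)⁻¹))) :=
        (Real.continuousAt_rpow_const 0 ((k j : ℝ)⁻¹) (Or.inr (by positivity))).tendsto
      rw [Real.zero_rpow (by simpa using hj)] at h3
      exact h3.comp h2
  obtain ⟨j00, hj00, -⟩ := hne 0
  have : Nonempty J := ⟨j00⟩
  -- a maximizer
  have hmax : ∀ i, ∃ j, ∀ j', a i j' ≤ a i j := fun i => Finite.exists_max (a i)
  choose jm hjm using hmax
  set σ : ℕ → ℝ := fun i => a i (jm i) with hσ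
  have hσpos : ∀ i, 0 < σ i := by
    intro i
    obtain ⟨j, hj, hcj⟩ := hne i
    refine lt_of_lt_of_le ?_ (hjm i j)
    simp only [ha, if_neg hj]
    exact Real.rpow_pos_of_pos (abs_pos.2 hcj) _
  have hjmk : ∀ i, k (jm i) ≠ 0 := by
    intro i hk
    have h := hσpos i
    simp only [hσ, ha, if_pos hk] at h
    exact lt_irrefl _ h
  have hσtend : Tendsto σ atTop (𝓝 0) := by
    have hsum : Tendsto (fun i => ∑ j, a i j) atTop (𝓝 0) := by
      have := tendsto_finsetSum (Finset.univ : Finset J) (fun j _ => hatend j)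
      simpa using this
    refine squeeze_zero (fun i => (hσpos i).le) (fun i => ?_) hsum
    exact Finset.single_le_sum (f := fun j => a i j) (fun j _ => ha0 i j) (Finset.mem_univ (jm i))
  set T : ℕ → ℝ := fun i => (σ i)⁻¹ with hT
  have hTpos : ∀ i, 0 < T i := fun i => inv_pos.2 (hσpos i)
  have hTtend : Tendsto T atTop atTop := by
    have h2 : Tendsto σ atTop (𝓝[>] 0) :=
      tendsto_nhdsWithin_iff.2 ⟨hσtend, Filter.Eventually.of_forall fun i => hσpos i⟩
    exact h2.inv_tendsto_nhdsGT_zero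
  -- bounds
  have hb1 : ∀ i j, k j ≠ 0 → |T i ^ k j * c i j| ≤ 1 := by
    intro i j hj
    rw [abs_mul, abs_of_pos (pow_pos (hTpos i) _), ← hapow i j hj, ← mul_pow]
    apply pow_le_one₀
    · exact mul_nonneg (hTpos i).le (ha0 i j)
    · simp only [hT]
      rw [inv_mul_le_one₀ (hσpos i)]
      exact hjm i j
  have hb2 : ∀ i, |T i ^ k (jm i) * c i (jm i)| = 1 := by
    intro i
    rw [abs_mul, abs_of_pos (pow_pos (hTpos i) _), ← hapow i (jm i) (hjmk i), ← mul_pow]
    simp only [hT]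
    rw [inv_mul_cancel₀ (hσpos i).ne', one_pow]
  -- a uniform bound
  have hb0 : ∀ j, ∃ B : ℝ, ∀ i, |T i ^ k j * c i j| ≤ B := by
    intro j
    by_cases hj : k j = 0
    · obtain ⟨B, hB⟩ := (h0 j hj).abs.bddAbove_range
      exact ⟨B, fun i => by rw [hj, pow_zero, one_mul]; exact hB ⟨i, rfl⟩⟩
    · exact ⟨1, fun i => hb1 i j hj⟩
  choose B hB using hb0
  set K : Set (J → ℝ) := Set.pi Set.univ (fun j => Icc (-(B j)) (B j)) with hK
  have hKc : IsCompact K := isCompact_univ_pi fun j => isCompact_Icc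
  have hKm : ∀ i, (fun j => T i ^ k j * c i j) ∈ K := by
    intro i j _
    exact abs_le.1 (hB j i)
  set K' : Set (J → ℝ) := K ∩ ⋃ j ∈ {j | k j ≠ 0}, {v | |v j| = 1} with hK'
  have hK'c : IsCompact K' := by
    refine hKc.inter_right ?_
    refine Set.Finite.isClosed_biUnion (Set.toFinite _) fun j _ => ?_
    exact isClosed_eq (by fun_prop) continuous_const
  have hK'm : ∀ i, (fun j => T i ^ k j * c i j) ∈ K' := by
    intro i
    refine ⟨hKm i, ?_⟩
    simp only [Set.mem_iUnion]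
    exact ⟨jm i, hjmk i, hb2 i⟩
  obtain ⟨C, hC, f, hf, hlim⟩ := hK'c.tendsto_subseq hK'm
  refine ⟨T, hTpos, hTtend, f, hf, C, ?_, ?_⟩
  · intro j
    exact (tendsto_pi_nhds.1 hlim) j
  · obtain ⟨-, hC2⟩ := hC
    simp only [Set.mem_iUnion] at hC2
    obtain ⟨j, hj, hCj⟩ := hC2
    refine ⟨j, hj, ?_⟩
    intro h
    have : |C j| = 1 := hCj
    rw [h] at this
    simp at this

/-- coordinates of a pair -/
def co {ι : Type} (q : W ι) : (ι × ι) ⊕ ι → ℝ := Sum.elim (fun e => q.1 e.1 e.2) q.2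

theorem co_ext {ι : Type} {q q' : W ι} (h : ∀ e, co q e = co q' e) : q = q' := by
  refine Prod.ext ?_ ?_
  · ext i j
    exact h (Sum.inl (i, j))
  · ext i
    exact h (Sum.inr i)

theorem tendsto_co {ι : Type} {α : Type*} {l : Filter α} {q : α → W ι} {p : W ι} :
    Tendsto q l (𝓝 p) ↔ ∀ e, Tendsto (fun a => co (q a) e) l (𝓝 (co p e)) := by
  constructor
  · rintro h (⟨i, j⟩ | i)
    · have h1 : Tendsto (fun a => (q a).1) l (𝓝 p.1) := (continuous_fst.tendsto p).comp h
      exact tendsto_pi_nhds.1 (tendsto_pi_nhds.1 h1 i) j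
    · have h1 : Tendsto (fun a => (q a).2) l (𝓝 p.2) := (continuous_snd.tendsto p).comp h
      exact tendsto_pi_nhds.1 h1 i
  · intro h
    have h1 : Tendsto (fun a => (q a).1) l (𝓝 p.1) :=
      tendsto_pi_nhds.2 fun i => tendsto_pi_nhds.2 fun j => h (Sum.inl (i, j))
    have h2 : Tendsto (fun a => (q a).2) l (𝓝 p.2) :=
      tendsto_pi_nhds.2 fun i => h (Sum.inr i)
    exact h1.prodMk_nhds h2

/-- the pair built from coordinates -/
def mkW {ι : Type} (c : (ι × ι) ⊕ ι → ℝ) : W ι :=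
  (fun i j => c (Sum.inl (i, j)), fun i => c (Sum.inr i))

theorem co_mkW {ι : Type} (c : (ι × ι) ⊕ ι → ℝ) (e : (ι × ι) ⊕ ι) : co (mkW c) e = c e := by
  rcases e with ⟨i, j⟩ | i <;> rfl

section poly

variable {ι : Type} [Fintype ι] [DecidableEq ι] {d : ℕ} (U : UAct ι d)

/-- the coordinate polynomials of `w ↦ act q (U.u w)` -/
noncomputable def Fp (q : W ι) : (ι × ι) ⊕ ι → MvPolynomial (Fin d) ℝ
  | Sum.inl (i, j) => ∑ k, ∑ l, MvPolynomial.C (q.1 k l) * (U.pol k i * U.pol l j)
  | Sum.inr i => ∑ k, MvPolynomial.C (q.2 k) * U.pol k i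

theorem eval_Fp (q : W ι) (w : Fin d → ℝ) (e : (ι × ι) ⊕ ι) :
    MvPolynomial.eval w (Fp U q e) = co (act q (U.u w)) e := by
  rcases e with ⟨i, j⟩ | i
  · change MvPolynomial.eval w (∑ k, ∑ l, MvPolynomial.C (q.1 k l) * (U.pol k i * U.pol l j))
      = ((U.u w)ᵀ * q.1 * U.u w) i j
    simp only [map_sum, map_mul, MvPolynomial.eval_C, Matrix.mul_apply, Matrix.transpose_apply,
      U.spec, Finset.sum_mul]
    rw [Finset.sum_comm]
    refine Finset.sum_congr rfl fun l _ => Finset.sum_congr rfl fun k _ => ?_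
    ring
  · change MvPolynomial.eval w (∑ k, MvPolynomial.C (q.2 k) * U.pol k i) = (q.2 ᵥ* U.u w) i
    simp only [map_sum, map_mul, MvPolynomial.eval_C, Matrix.vecMul, dotProduct, U.spec]

/-- the finite set of all exponents -/
noncomputable def Ms : Finset (Fin d →₀ ℕ) :=
  (Finset.univ.biUnion fun a : (ι × ι) × (ι × ι) =>
      (U.pol a.1.1 a.1.2 * U.pol a.2.1 a.2.2).support) ∪
    (Finset.univ.biUnion fun a : ι × ι => (U.pol a.1 a.2).support)

theorem coeff_Fp_zero (q : W ι) (e : (ι × ι) ⊕ ι) (m : Fin d →₀ ℕ) (hm : m ∉ Ms U) :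
    (Fp U q e).coeff m = 0 := by
  classical
  simp only [Ms, Finset.mem_union, Finset.mem_biUnion, Finset.mem_univ, true_and, not_or,
    not_exists, MvPolynomial.mem_support_iff, not_not] at hm
  obtain ⟨h1, h2⟩ := hm
  rcases e with ⟨i, j⟩ | i
  · change MvPolynomial.coeff m
      (∑ k, ∑ l, MvPolynomial.C (q.1 k l) * (U.pol k i * U.pol l j)) = 0
    rw [MvPolynomial.coeff_sum]
    refine Finset.sum_eq_zero fun k _ => ?_
    rw [MvPolynomial.coeff_sum]
    refine Finset.sum_eq_zero fun l _ => ?_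
    rw [MvPolynomial.coeff_C_mul, h1 ((k, i), (l, j)), mul_zero]
  · change MvPolynomial.coeff m (∑ k, MvPolynomial.C (q.2 k) * U.pol k i) = 0
    rw [MvPolynomial.coeff_sum]
    refine Finset.sum_eq_zero fun k _ => ?_
    rw [MvPolynomial.coeff_C_mul, h2 (k, i), mul_zero]

theorem coeff_Fp_tendsto {q : ℕ → W ι} {p : W ι} (h : Tendsto q atTop (𝓝 p))
    (e : (ι × ι) ⊕ ι) (m : Fin d →₀ ℕ) :
    Tendsto (fun i => (Fp U (q i) e).coeff m) atTop (𝓝 ((Fp U p e).coeff m)) := by
  have hco := tendsto_co.1 h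
  rcases e with ⟨i, j⟩ | i
  · change Tendsto (fun n => MvPolynomial.coeff m
      (∑ k, ∑ l, MvPolynomial.C ((q n).1 k l) * (U.pol k i * U.pol l j))) atTop
      (𝓝 (MvPolynomial.coeff m (∑ k, ∑ l, MvPolynomial.C (p.1 k l) * (U.pol k i * U.pol l j))))
    simp only [MvPolynomial.coeff_sum, MvPolynomial.coeff_C_mul]
    refine tendsto_finsetSum _ fun k _ => tendsto_finsetSum _ fun l _ => ?_
    exact (hco (Sum.inl (k, l))).mul_const _
  · change Tendsto (fun n => MvPolynomial.coeff m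
      (∑ k, MvPolynomial.C ((q n).2 k) * U.pol k i)) atTop
      (𝓝 (MvPolynomial.coeff m (∑ k, MvPolynomial.C (p.2 k) * U.pol k i)))
    simp only [MvPolynomial.coeff_sum, MvPolynomial.coeff_C_mul]
    refine tendsto_finsetSum _ fun k _ => ?_
    exact (hco (Sum.inr k)).mul_const _

/-- evaluation through the common exponent set, with a scaling factor -/
theorem eval_scaled (q : W ι) (e : (ι × ι) ⊕ ι) (T : ℝ) (w : Fin d → ℝ) :
    co (act q (U.u (T • w))) e =
      ∑ m ∈ Ms U, (T ^ m.degree * (Fp U q e).coeff m) * ∏ i, w i ^ m i := by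
  classical
  rw [← eval_Fp, MvPolynomial.eval_eq']
  have hsub : (Fp U q e).support ⊆ Ms U := by
    intro m hm
    by_contra hc
    exact (MvPolynomial.mem_support_iff.1 hm) (coeff_Fp_zero U q e m hc)
  rw [Finset.sum_subset hsub]
  · refine Finset.sum_congr rfl fun m _ => ?_
    have : ∏ i, (T • w) i ^ m i = T ^ m.degree * ∏ i, w i ^ m i := by
      simp only [Pi.smul_apply, smul_eq_mul, mul_pow, Finset.prod_mul_distrib]
      congr 1
      rw [Finset.prod_pow_eq_pow_sum]
      congr 1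
      rw [Finsupp.degree]
      exact (Finset.sum_subset (Finset.subset_univ _) (fun i _ hi => by
        simpa using hi)).symm
    rw [this]
    ring
  · intro m _ hm
    rw [MvPolynomial.notMem_support_iff.1 hm, zero_mul]

theorem coeff_p {p : W ι} (hp : ∀ w, act p (U.u w) = p) (e : (ι × ι) ⊕ ι) :
    Fp U p e = MvPolynomial.C (co p e) := by
  refine MvPolynomial.funext fun w => ?_
  rw [eval_Fp, hp w, MvPolynomial.eval_C]

theorem u_zero : U.u 0 = 1 := by
  have h := U.add 0 0
  rw [add_zero] at h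
  have hu : IsUnit (U.u 0) :=
    (Matrix.isUnit_iff_isUnit_det _).2 (by rw [U.det_one]; exact isUnit_one)
  have h2 : U.u 0 * U.u 0 = U.u 0 * 1 := by rw [mul_one]; exact h.symm
  exact hu.mul_left_cancel h2

theorem act_one (q : W ι) : act q (1 : Matrix ι ι ℝ) = q := by
  unfold act
  refine Prod.ext ?_ ?_
  · change (1 : Matrix ι ι ℝ)ᵀ * q.1 * 1 = q.1
    simp
  · change q.2 ᵥ* (1 : Matrix ι ι ℝ) = q.2
    simp

omit [DecidableEq ι] in
theorem act_cont (g : Matrix ι ι ℝ) : Continuous fun q : W ι => act q g := by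
  unfold act
  refine Continuous.prodMk ?_ ?_
  · exact (continuous_const.matrix_mul continuous_fst).matrix_mul continuous_const
  · exact Continuous.matrix_vecMul continuous_snd continuous_const

end poly

theorem drift {ι : Type} [Fintype ι] [DecidableEq ι] {d : ℕ} (U : UAct ι d) (S : Set (ℝ × ℝ))
    (hS : IsClosed S) (Y : Set (Matrix ι ι ℝ)) (x : Matrix ι ι ℝ) (hret : Ret U Y x)
    (q : ℕ → W ι) (p : W ι) (hq : ∀ i, (x, q i) ∈ DD S) (hlim : Tendsto q atTop (𝓝 p))
    (hnf : ∀ i, ∃ w, act (q i) (U.u w) ≠ q i) (hp : ∀ w, act p (U.u w) = p) :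
    ∃ P : (Fin d → ℝ) → W ι, P 0 = p ∧ (∃ ω, P ω ≠ p) ∧
      (∀ ω, ∃ (A : Matrix ι ι ℝ[X]) (b : ι → ℝ[X]), ∀ t : ℝ,
        P (t • ω) = (ev A t, fun i => (b i).eval t)) ∧
      (∀ ω w, act (P ω) (U.u w) = P ω) ∧
      (∀ ω, ∀ x' ∈ Y, (x', P ω) ∈ DD S) ∧
      (∀ ω, P ω ∈ closure {q' | ∃ i w, q' = act (q i) (U.u w)}) := by
  classical
  -- index set, weights, coefficients
  set J := (Ms U) × ((ι × ι) ⊕ ι) with hJ
  have hcoef : ∀ j : J, Tendsto (fun i => (Fp U (q i) j.2).coeff j.1.1) atTop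
      (𝓝 ((Fp U p j.2).coeff j.1.1)) := fun j => coeff_Fp_tendsto U hlim j.2 j.1.1
  have hcoef1 : ∀ j : J, j.1.1.degree ≠ 0 → Tendsto (fun i => (Fp U (q i) j.2).coeff j.1.1) atTop
      (𝓝 0) := by
    intro j hj
    have h := hcoef j
    rw [coeff_p U hp, MvPolynomial.coeff_C, if_neg] at h
    · exact h
    · intro h0
      rw [← h0] at hj
      simp at hj
  have hne : ∀ i, ∃ j : J, j.1.1.degree ≠ 0 ∧ (Fp U (q i) j.2).coeff j.1.1 ≠ 0 := by
    intro i
    by_contra hcon
    push Not at hcon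
    obtain ⟨w, hw⟩ := hnf i
    apply hw
    have hconst : ∀ w' : Fin d → ℝ, ∀ e, co (act (q i) (U.u w')) e
        = ∑ m ∈ Ms U, (1 : ℝ) ^ m.degree * (Fp U (q i) e).coeff m * (if m = 0 then 1 else 0) := by
      intro w' e
      have h1 := eval_scaled U (q i) e 1 w'
      rw [one_smul] at h1
      rw [h1]
      refine Finset.sum_congr rfl fun m hm => ?_
      by_cases hm0 : m = 0
      · subst hm0
        simp
      · have hdeg : m.degree ≠ 0 := by
          intro h
          exact hm0 ((Finsupp.degree_eq_zero_iff m).1 h)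
        rw [hcon (⟨m, hm⟩, e) hdeg]
        simp
    have h2 : act (q i) (U.u w) = act (q i) (U.u 0) :=
      co_ext fun e => by rw [hconst w e, hconst 0 e]
    rw [h2, u_zero, act_one]
  obtain ⟨T, hTpos, hTtend, f, hf, C, hC, ⟨j0, hj0, hCj0⟩⟩ :=
    rescale (fun j : J => j.1.1.degree) (fun i j => (Fp U (q i) j.2).coeff j.1.1)
      (fun j => (Fp U p j.2).coeff j.1.1) (fun j _ => hcoef j) hcoef1 hne
  -- the limit polynomial
  set P : (Fin d → ℝ) → W ι := fun ω =>
    mkW (fun e => ∑ m : Ms U, C (m, e) * ∏ i, ω i ^ (m : Fin d →₀ ℕ) i) with hP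
  have hcoP : ∀ ω e, co (P ω) e = ∑ m : Ms U, C (m, e) * ∏ i, ω i ^ (m : Fin d →₀ ℕ) i :=
    fun ω e => co_mkW _ e
  -- the main limit
  have key : ∀ (g : ℕ → ℕ) (w : ℕ → Fin d → ℝ) (ω : Fin d → ℝ), Tendsto g atTop atTop →
      Tendsto (fun n => (T (f (g n)))⁻¹ • w n) atTop (𝓝 ω) →
      Tendsto (fun n => act (q (f (g n))) (U.u (w n))) atTop (𝓝 (P ω)) := by
    intro g w ω hg hw
    rw [tendsto_co]
    intro e
    rw [hcoP]
    have heq : ∀ n, co (act (q (f (g n))) (U.u (w n))) e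
        = ∑ m : Ms U, (T (f (g n)) ^ (m : Fin d →₀ ℕ).degree *
            (Fp U (q (f (g n))) e).coeff (m : Fin d →₀ ℕ)) *
              ∏ i, ((T (f (g n)))⁻¹ • w n) i ^ (m : Fin d →₀ ℕ) i := by
      intro n
      have h1 : w n = T (f (g n)) • ((T (f (g n)))⁻¹ • w n) := by
        rw [smul_smul, mul_inv_cancel₀ (hTpos _).ne', one_smul]
      conv_lhs => rw [h1]
      rw [eval_scaled]
      exact (Finset.sum_coe_sort (Ms U) (fun m => (T (f (g n)) ^ m.degree *
            (Fp U (q (f (g n))) e).coeff m) * ∏ i, ((T (f (g n)))⁻¹ • w n) i ^ m i)).symm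
    simp only [heq]
    refine tendsto_finsetSum _ fun m _ => ?_
    refine Tendsto.mul ?_ ?_
    · exact (hC (m, e)).comp hg
    · refine tendsto_finsetProd _ fun i _ => ?_
      exact (tendsto_pi_nhds.1 hw i).pow _
  have hscale : ∀ ω : Fin d → ℝ, ∀ n, (T (f n))⁻¹ • (T (f n) • ω) = ω := by
    intro ω n
    rw [smul_smul, inv_mul_cancel₀ (hTpos _).ne', one_smul]
  have hTf : Tendsto (fun n => T (f n)) atTop atTop := hTtend.comp hf.tendsto_atTop
  have hP0 : P 0 = p := by
    have h1 := key id (fun _ => 0) 0 tendsto_id (by simp)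
    have h2 : Tendsto (fun n => act (q (f (id n))) (U.u 0)) atTop (𝓝 p) := by
      simp only [u_zero, act_one]
      exact hlim.comp hf.tendsto_atTop
    exact tendsto_nhds_unique h1 h2
  have hPcont : ∀ ω : Fin d → ℝ, ∃ (A : Matrix ι ι ℝ[X]) (b : ι → ℝ[X]), ∀ t : ℝ,
        P (t • ω) = (ev A t, fun i => (b i).eval t) := by
    intro ω
    set R : (ι × ι) ⊕ ι → ℝ[X] := fun e => ∑ m : Ms U,
      Polynomial.C (C (m, e) * ∏ i, ω i ^ (m : Fin d →₀ ℕ) i) *
        Polynomial.X ^ (m : Fin d →₀ ℕ).degree with hR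
    have hRe : ∀ e t, (R e).eval t = co (P (t • ω)) e := by
      intro e t
      rw [hcoP]
      simp only [hR, Polynomial.eval_finsetSum, Polynomial.eval_mul, Polynomial.eval_C,
        Polynomial.eval_pow, Polynomial.eval_X]
      refine Finset.sum_congr rfl fun m _ => ?_
      have : ∏ i, (t • ω) i ^ (m : Fin d →₀ ℕ) i
          = t ^ (m : Fin d →₀ ℕ).degree * ∏ i, ω i ^ (m : Fin d →₀ ℕ) i := by
        simp only [Pi.smul_apply, smul_eq_mul, mul_pow, Finset.prod_mul_distrib]
        congr 1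
        rw [Finset.prod_pow_eq_pow_sum]
        congr 1
        rw [Finsupp.degree]
        exact (Finset.sum_subset (Finset.subset_univ _) (fun i _ hi => by
          simpa using hi)).symm
      rw [this]
      ring
    refine ⟨fun i j => R (Sum.inl (i, j)), fun i => R (Sum.inr i), fun t => ?_⟩
    refine co_ext fun e => ?_
    rw [← hRe e t]
    rcases e with ⟨i, j⟩ | i
    · rfl
    · rfl
  have hPne : ∃ ω, P ω ≠ p := by
    by_contra hcon
    push Not at hcon
    -- the polynomial of the coordinate `j0.2` is constant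
    set G : MvPolynomial (Fin d) ℝ :=
      ∑ m : Ms U, MvPolynomial.monomial (m : Fin d →₀ ℕ) (C (m, j0.2)) with hG
    have hGe : ∀ ω, MvPolynomial.eval ω G = co (P ω) j0.2 := by
      intro ω
      rw [hcoP, hG, map_sum]
      refine Finset.sum_congr rfl fun m _ => ?_
      rw [MvPolynomial.eval_monomial]
      congr 1
      exact Finsupp.prod_fintype _ _ (fun i => pow_zero _)
    have hGc : G = MvPolynomial.C (co p j0.2) := by
      refine MvPolynomial.funext fun ω => ?_
      rw [hGe, hcon ω, MvPolynomial.eval_C]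
    have h1 : G.coeff j0.1.1 = C j0 := by
      rw [hG, MvPolynomial.coeff_sum, Finset.sum_eq_single j0.1]
      · rw [MvPolynomial.coeff_monomial, if_pos rfl]
      · intro m _ hm
        rw [MvPolynomial.coeff_monomial, if_neg]
        intro h
        exact hm (Subtype.ext h)
      · intro h
        exact absurd (Finset.mem_univ _) h
    rw [hGc, MvPolynomial.coeff_C, if_neg] at h1
    · exact hCj0 h1.symm
    · intro h0
      rw [← h0] at hj0
      simp at hj0
  have hmem : ∀ ω : Fin d → ℝ, ω ≠ 0 → ∀ x' ∈ Y, (x', P ω) ∈ DD S := by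
    intro ω hω x' hx'
    -- returns in the direction `-ω`
    have hstep : ∀ n : ℕ, ∃ g : ℕ, n ≤ g ∧ ∃ w : Fin d → ℝ,
        ‖w - T (f g) • (-ω)‖ ≤ (1 / ((n : ℝ) + 1)) * T (f g) ∧ ∃ γ ∈ Gam ι,
          ∀ i j, |(U.u w * x * γ - x') i j| < 1 / ((n : ℝ) + 1) := by
      intro n
      obtain ⟨T0, hT0⟩ := hret x' hx' (-ω) (neg_ne_zero.2 hω) (1 / ((n : ℝ) + 1)) (by positivity)
      obtain ⟨g, hg1, hg2⟩ :=
        ((hTf.eventually_ge_atTop T0).and (eventually_ge_atTop n)).exists
      exact ⟨g, hg2, hT0 _ hg1⟩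
    choose g hg w hw γ hγ hγx using hstep
    have hgt : Tendsto g atTop atTop := tendsto_atTop_mono hg tendsto_id
    have hinv : Tendsto (fun n : ℕ => 1 / ((n : ℝ) + 1)) atTop (𝓝 0) :=
      tendsto_one_div_add_atTop_nhds_zero_nat
    have hlimw : Tendsto (fun n => (T (f (g n)))⁻¹ • (-(w n))) atTop (𝓝 ω) := by
      rw [tendsto_iff_norm_sub_tendsto_zero]
      refine squeeze_zero (fun n => norm_nonneg _) (fun n => ?_) hinv
      have hTp := hTpos (f (g n))
      have h1 : (T (f (g n)))⁻¹ • (-(w n)) - ω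
          = -((T (f (g n)))⁻¹ • (w n - T (f (g n)) • (-ω))) := by
        rw [smul_sub, smul_smul, inv_mul_cancel₀ hTp.ne', one_smul, smul_neg]
        abel
      rw [h1, norm_neg, norm_smul, norm_inv, Real.norm_of_nonneg hTp.le]
      calc (T (f (g n)))⁻¹ * ‖w n - T (f (g n)) • (-ω)‖
          ≤ (T (f (g n)))⁻¹ * ((1 / ((n : ℝ) + 1)) * T (f (g n))) :=
            mul_le_mul_of_nonneg_left (hw n) (inv_pos.2 hTp).le
        _ = 1 / ((n : ℝ) + 1) := by field_simp
    have hk := key g (fun n => -(w n)) ω hgt hlimw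
    have hxl : Tendsto (fun n => U.u (w n) * x * γ n) atTop (𝓝 x') := by
      refine tendsto_pi_nhds.2 fun i => tendsto_pi_nhds.2 fun j => ?_
      rw [tendsto_iff_norm_sub_tendsto_zero]
      refine squeeze_zero (fun n => norm_nonneg _) (fun n => ?_) hinv
      have := hγx n i j
      rw [Matrix.sub_apply] at this
      exact this.le
    have hpair := hxl.prodMk_nhds hk
    refine (DD_closed hS).mem_of_tendsto hpair (Filter.Eventually.of_forall fun n => ?_)
    have hmul : U.u (-(w n)) * U.u (w n) = 1 := by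
      rw [← U.add, neg_add_cancel, u_zero]
    exact DD_gam (DD_left (hq (f (g n))) hmul) (hγ n)
  refine ⟨P, hP0, hPne, hPcont, ?_, ?_, ?_⟩
  · intro ω v
    have h1 := key id (fun n => T (f n) • ω + v) ω tendsto_id (by
      have h2 : ∀ n, (T (f (id n)))⁻¹ • (T (f n) • ω + v) = ω + (T (f n))⁻¹ • v := by
        intro n
        rw [smul_add]
        congr 1
        exact hscale ω n
      simp only [h2]
      have h3 : Tendsto (fun n => (T (f n))⁻¹ • v) atTop (𝓝 ((0 : ℝ) • v)) :=
        (hTf.inv_tendsto_atTop).smul_const v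
      rw [zero_smul] at h3
      simpa using tendsto_const_nhds.add h3)
    have h4 := key id (fun n => T (f n) • ω) ω tendsto_id (by
      simp only [id, hscale]
      exact tendsto_const_nhds)
    have h5 : Tendsto (fun n => act (act (q (f (id n))) (U.u (T (f n) • ω))) (U.u v)) atTop
        (𝓝 (act (P ω) (U.u v))) := ((act_cont (U.u v)).tendsto _).comp h4
    simp only [act_act, ← U.add] at h5
    exact tendsto_nhds_unique h5 h1
  · intro ω x' hx'
    by_cases hω : ω = 0
    · obtain ⟨ω0, hω0⟩ := hPne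
      have hω0' : ω0 ≠ 0 := by
        rintro rfl
        exact hω0 hP0
      obtain ⟨A, b, hAb⟩ := hPcont ω0
      have hlimP : Tendsto (fun n : ℕ => P ((1 / ((n : ℝ) + 1)) • ω0)) atTop (𝓝 (P 0)) := by
        have h0 : P 0 = (ev A 0, fun i => (b i).eval 0) := by
          rw [← hAb 0, zero_smul]
        rw [h0]
        simp only [hAb]
        have hinv : Tendsto (fun n : ℕ => 1 / ((n : ℝ) + 1)) atTop (𝓝 0) :=
          tendsto_one_div_add_atTop_nhds_zero_nat
        refine Tendsto.prodMk_nhds ?_ ?_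
        · refine tendsto_pi_nhds.2 fun i => tendsto_pi_nhds.2 fun j => ?_
          exact ((A i j).continuous.tendsto 0).comp hinv
        · refine tendsto_pi_nhds.2 fun i => ?_
          exact ((b i).continuous.tendsto 0).comp hinv
      rw [hω]
      have hpair : Tendsto (fun n : ℕ => (x', P ((1 / ((n : ℝ) + 1)) • ω0))) atTop
          (𝓝 (x', P 0)) := tendsto_const_nhds.prodMk_nhds hlimP
      refine (DD_closed hS).mem_of_tendsto hpair (Filter.Eventually.of_forall fun n => ?_)
      exact hmem _ (smul_ne_zero (by positivity) hω0') x' hx'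
    · exact hmem ω hω x' hx'
  · intro ω
    have h4 := key id (fun n => T (f n) • ω) ω tendsto_id (by
      simp only [id, hscale]
      exact tendsto_const_nhds)
    exact mem_closure_of_tendsto h4 (Filter.Eventually.of_forall fun n => ⟨_, _, rfl⟩)

end QL.H60
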