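import Pool.Agent.Helper60_QL.Grow4

/-!
# QL module goodt4, helper60
-/

set_option autoImplicit false
set_option linter.unusedSimpArgs false
open Matrix Polynomial MeasureTheory Set Filter Topology

namespace QL.H60

theorem der_ne (f : ℝ[X]) (h0 : f.eval 0 = 0) (hf : f ≠ 0) : derivative f ≠ 0 := by
  intro h
  apply hf
  have h1 := Polynomial.derivative_eq_zero.1 h
  rw [Polynomial.eq_C_of_natDegree_eq_zero h1] at h0 ⊢
  rw [Polynomial.eval_C] at h0
  rw [h0, Polynomial.C_0]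

theorem roots_fin (f : ℝ[X]) (hf : f ≠ 0) : {t : ℝ | f.eval t = 0}.Countable :=
  ((Polynomial.finite_setOfPred_isRoot hf).subset fun _ ht => ht).countable

theorem L4_n4 (b μ α : ℝ) : L4 ᵥ* n4 b μ α = cov4 1 b := congrArg Prod.snd (act_n4 b μ α)

theorem B4_n4 (b μ α : ℝ) : (n4 b μ α)ᵀ * B4 * n4 b μ α = form4 1 (2*α) μ 0 :=
  congrArg Prod.fst (act_n4 b μ α)

theorem bad1 (x : Matrix (Fin 4) (Fin 4) ℝ) (hx : x.det = 1)
    (hL : ∀ w : Fin 4 → ℤ, w ≠ 0 → ¬ ∃ c : ℝ, iv w = c • (L4 ᵥ* x)) (b μ α : ℝ[X])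
    (hb0 : b.eval 0 = 0) (w : Fin 4 → ℤ) (hw : w ≠ 0) :
    {t : ℝ | ∃ c : ℝ,
      iv w = c • (L4 ᵥ* (n4 (b.eval t) (μ.eval t) (α.eval t) * x))}.Countable := by
  have hu : IsUnit x.det := by rw [hx]; exact isUnit_one
  set p : Fin 4 → ℝ := iv w ᵥ* x⁻¹ with hp
  have key : ∀ t c : ℝ, iv w = c • (L4 ᵥ* (n4 (b.eval t) (μ.eval t) (α.eval t) * x)) →
      p = c • cov4 1 (b.eval t) := by
    intro t c h
    rw [hp, h, Matrix.smul_vecMul, Matrix.vecMul_vecMul, Matrix.mul_assoc,
      Matrix.mul_nonsing_inv _ hu, Matrix.mul_one, L4_n4]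
  by_cases hpoly : C (p 3) * b - C (p 0) = 0
  · have hempty : {t : ℝ | ∃ c : ℝ,
        iv w = c • (L4 ᵥ* (n4 (b.eval t) (μ.eval t) (α.eval t) * x))} = ∅ := by
      rw [Set.eq_empty_iff_forall_notMem]
      rintro t ⟨c, hc⟩
      have hk := key t c hc
      have h0 : p 0 = c * b.eval t := by
        have := congrFun hk 0
        simpa [cov4] using this
      have h3 : p 3 = c := by
        have := congrFun hk 3
        simpa [cov4] using this
      have he := congrArg (Polynomial.eval 0) hpoly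
      simp only [Polynomial.eval_sub, Polynomial.eval_mul, Polynomial.eval_C, hb0, mul_zero,
        zero_sub, Polynomial.eval_zero, neg_eq_zero] at he
      -- `c * b t = 0`
      rw [he] at h0
      rcases mul_eq_zero.1 h0.symm with hc0 | hb
      · rw [hc0, zero_smul] at hc
        apply hw
        funext i
        have := congrFun hc i
        simpa [iv] using this
      · refine hL w hw ⟨c, ?_⟩
        have h5 : cov4 1 0 = L4 := by
          funext i
          fin_cases i <;> simp [cov4, L4]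
        rw [hc, ← Matrix.vecMul_vecMul, L4_n4, hb, h5]
    rw [hempty]
    exact Set.countable_empty
  · refine (roots_fin _ hpoly).mono ?_
    rintro t ⟨c, hc⟩
    have hk := key t c hc
    have h0 : p 0 = c * b.eval t := by
      have := congrFun hk 0
      simpa [cov4] using this
    have h3 : p 3 = c := by
      have := congrFun hk 3
      simpa [cov4] using this
    change Polynomial.eval t (C (p 3) * b - C (p 0)) = 0
    rw [Polynomial.eval_sub, Polynomial.eval_mul, Polynomial.eval_C, Polynomial.eval_C, h0, h3,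
      sub_self]

theorem bad2 (x : Matrix (Fin 4) (Fin 4) ℝ) (hx : x.det = 1)
    (hR : ∀ R : Matrix (Fin 4) (Fin 4) ℤ, R ≠ 0 → ¬ ∃ a b : ℝ,
      im R = a • (xᵀ * B4 * x) + b • vecMulVec (L4 ᵥ* x) (L4 ᵥ* x)) (b μ α : ℝ[X])
    (hb0 : b.eval 0 = 0) (hμ0 : μ.eval 0 = 0) (hα0 : α.eval 0 = 0)
    (R : Matrix (Fin 4) (Fin 4) ℤ) (hR0 : R ≠ 0) :
    {t : ℝ | ∃ a' b' : ℝ,
        im R = a' • ((n4 (b.eval t) (μ.eval t) (α.eval t) * x)ᵀ * B4 *
            (n4 (b.eval t) (μ.eval t) (α.eval t) * x)) +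
          b' • vecMulVec (L4 ᵥ* (n4 (b.eval t) (μ.eval t) (α.eval t) * x))
            (L4 ᵥ* (n4 (b.eval t) (μ.eval t) (α.eval t) * x))}.Countable := by
  have hu : IsUnit x.det := by rw [hx]; exact isUnit_one
  have hxi : x * x⁻¹ = 1 := Matrix.mul_nonsing_inv _ hu
  have hxi2 : x⁻¹ * x = 1 := Matrix.nonsing_inv_mul _ hu
  have hxt : (x⁻¹)ᵀ * xᵀ = 1 := by
    rw [← Matrix.transpose_mul, hxi, Matrix.transpose_one]
  have hxt2 : xᵀ * (x⁻¹)ᵀ = 1 := by
    rw [← Matrix.transpose_mul, hxi2, Matrix.transpose_one]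
  set M : Matrix (Fin 4) (Fin 4) ℝ := (x⁻¹)ᵀ * im R * x⁻¹ with hM
  have hback : im R = xᵀ * M * x := by
    rw [hM]
    calc im R = (xᵀ * (x⁻¹)ᵀ) * im R * (x⁻¹ * x) := by rw [hxt2, hxi2, Matrix.one_mul,
          Matrix.mul_one]
      _ = xᵀ * ((x⁻¹)ᵀ * im R * x⁻¹) * x := by simp only [Matrix.mul_assoc]
  have key : ∀ (t a' b' : ℝ),
      im R = a' • ((n4 (b.eval t) (μ.eval t) (α.eval t) * x)ᵀ * B4 *
            (n4 (b.eval t) (μ.eval t) (α.eval t) * x)) +
          b' • vecMulVec (L4 ᵥ* (n4 (b.eval t) (μ.eval t) (α.eval t) * x))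
            (L4 ᵥ* (n4 (b.eval t) (μ.eval t) (α.eval t) * x)) →
      M = a' • form4 1 (2 * α.eval t) (μ.eval t) 0 +
        b' • vecMulVec (cov4 1 (b.eval t)) (cov4 1 (b.eval t)) := by
    intro t a' b' h
    have h1 : (n4 (b.eval t) (μ.eval t) (α.eval t) * x)ᵀ * B4 *
        (n4 (b.eval t) (μ.eval t) (α.eval t) * x) =
        xᵀ * form4 1 (2 * α.eval t) (μ.eval t) 0 * x := by
      rw [← B4_n4 (b.eval t), Matrix.transpose_mul]
      simp only [Matrix.mul_assoc]
    have h2 : vecMulVec (L4 ᵥ* (n4 (b.eval t) (μ.eval t) (α.eval t) * x))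
        (L4 ᵥ* (n4 (b.eval t) (μ.eval t) (α.eval t) * x)) =
        xᵀ * vecMulVec (cov4 1 (b.eval t)) (cov4 1 (b.eval t)) * x := by
      rw [← Matrix.vecMul_vecMul, L4_n4, Matrix.mul_vecMulVec, Matrix.vecMulVec_mul,
        Matrix.mulVec_transpose]
    rw [h1, h2] at h
    rw [hM, h]
    have h3 : ∀ F : Matrix (Fin 4) (Fin 4) ℝ, (x⁻¹)ᵀ * (xᵀ * F * x) * x⁻¹ = F := by
      intro F
      calc (x⁻¹)ᵀ * (xᵀ * F * x) * x⁻¹ = ((x⁻¹)ᵀ * xᵀ) * F * (x * x⁻¹) := by
            simp only [Matrix.mul_assoc]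
        _ = F := by rw [hxt, hxi, Matrix.one_mul, Matrix.mul_one]
    rw [Matrix.mul_add, Matrix.add_mul, Matrix.mul_smul, Matrix.smul_mul, Matrix.mul_smul,
      Matrix.smul_mul, h3, h3]
  have entries : ∀ (t a' b' : ℝ), M = a' • form4 1 (2 * α.eval t) (μ.eval t) 0 +
        b' • vecMulVec (cov4 1 (b.eval t)) (cov4 1 (b.eval t)) →
      M 0 2 = a' ∧ M 3 3 = b' ∧ M 0 3 = a' * μ.eval t + b' * b.eval t ∧
        M 0 0 = a' * (2 * α.eval t) + b' * (b.eval t * b.eval t) := by
    intro t a' b' h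
    have hij : ∀ i j, M i j = a' * form4 1 (2 * α.eval t) (μ.eval t) 0 i j +
        b' * (cov4 1 (b.eval t) i * cov4 1 (b.eval t) j) := by
      intro i j
      rw [h, Matrix.add_apply, Matrix.smul_apply, Matrix.smul_apply, Matrix.vecMulVec_apply]
      rfl
    refine ⟨?_, ?_, ?_, ?_⟩
    · rw [hij]; simp [form4, cov4]
    · rw [hij]; simp [form4, cov4]
    · rw [hij]; simp [form4, cov4]
    · rw [hij]; simp [form4, cov4]
  by_cases hP : C (M 0 2) * μ + C (M 3 3) * b - C (M 0 3) = 0 ∧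
      C (M 0 2) * (C 2 * α) + C (M 3 3) * (b * b) - C (M 0 0) = 0
  · obtain ⟨hP1, hP2⟩ := hP
    have he1 := congrArg (Polynomial.eval 0) hP1
    have he2 := congrArg (Polynomial.eval 0) hP2
    simp only [Polynomial.eval_sub, Polynomial.eval_add, Polynomial.eval_mul, Polynomial.eval_C,
      hb0, hμ0, hα0, mul_zero, add_zero, zero_sub, Polynomial.eval_zero, neg_eq_zero] at he1 he2
    have hempty : {t : ℝ | ∃ a' b' : ℝ,
        im R = a' • ((n4 (b.eval t) (μ.eval t) (α.eval t) * x)ᵀ * B4 *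
            (n4 (b.eval t) (μ.eval t) (α.eval t) * x)) +
          b' • vecMulVec (L4 ᵥ* (n4 (b.eval t) (μ.eval t) (α.eval t) * x))
            (L4 ᵥ* (n4 (b.eval t) (μ.eval t) (α.eval t) * x))} = ∅ := by
      rw [Set.eq_empty_iff_forall_notMem]
      rintro t ⟨a', b', h⟩
      have hk := key t a' b' h
      obtain ⟨e1, e2, e3, e4⟩ := entries t a' b' hk
      rw [he1] at e3
      rw [he2] at e4
      refine hR R hR0 ⟨a', b', ?_⟩
      have hMM : M = a' • B4 + b' • vecMulVec L4 L4 := by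
        rw [hk]
        ext i j
        rw [Matrix.add_apply, Matrix.smul_apply, Matrix.smul_apply, Matrix.vecMulVec_apply,
          Matrix.add_apply, Matrix.smul_apply, Matrix.smul_apply, Matrix.vecMulVec_apply]
        fin_cases i <;> fin_cases j <;> (simp [form4, cov4, B4, L4]; try linarith)
      rw [hback, hMM, Matrix.mul_add, Matrix.add_mul, Matrix.mul_smul, Matrix.smul_mul,
        Matrix.mul_smul, Matrix.smul_mul, Matrix.mul_vecMulVec, Matrix.vecMulVec_mul,
        Matrix.mulVec_transpose]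
    rw [hempty]
    exact Set.countable_empty
  · rw [not_and_or] at hP
    rcases hP with hP | hP
    · refine (roots_fin _ hP).mono ?_
      rintro t ⟨a', b', h⟩
      obtain ⟨e1, e2, e3, e4⟩ := entries t a' b' (key t a' b' h)
      change Polynomial.eval t (C (M 0 2) * μ + C (M 3 3) * b - C (M 0 3)) = 0
      simp only [Polynomial.eval_sub, Polynomial.eval_add, Polynomial.eval_mul, Polynomial.eval_C]
      rw [e1, e2, e3, sub_self]
    · refine (roots_fin _ hP).mono ?_
      rintro t ⟨a', b', h⟩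
      obtain ⟨e1, e2, e3, e4⟩ := entries t a' b' (key t a' b' h)
      change Polynomial.eval t (C (M 0 2) * (C 2 * α) + C (M 3 3) * (b * b) - C (M 0 0)) = 0
      simp only [Polynomial.eval_sub, Polynomial.eval_add, Polynomial.eval_mul, Polynomial.eval_C]
      rw [e1, e2, e4, sub_self]

theorem bad3 (b μ α : ℝ[X]) (hb0 : b.eval 0 = 0)
    (hμ0 : μ.eval 0 = 0) (hα0 : α.eval 0 = 0) (hne : b ≠ 0 ∨ μ ≠ 0 ∨ α ≠ 0) :
    {t : ℝ | ¬ ((derivative α).eval t ≠ (derivative μ).eval t * b.eval t ∨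
        (derivative α = derivative μ * b ∧
          ((derivative b).eval t ≠ 0 ∨ (derivative μ).eval t ≠ 0)))}.Countable := by
  by_cases hA : derivative α = derivative μ * b
  · have h1 : derivative b ≠ 0 ∨ derivative μ ≠ 0 := by
      by_contra hcon
      push Not at hcon
      obtain ⟨hb, hμ⟩ := hcon
      have hb' : b = 0 := by
        by_contra h
        exact der_ne b hb0 h hb
      have hμ' : μ = 0 := by
        by_contra h
        exact der_ne μ hμ0 h hμ
      have hα' : α = 0 := by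
        by_contra h
        apply der_ne α hα0 h
        rw [hA, hμ, zero_mul]
      rcases hne with h | h | h
      · exact h hb'
      · exact h hμ'
      · exact h hα'
    rcases h1 with h1 | h1
    · refine (roots_fin _ h1).mono ?_
      intro t ht
      by_contra hcon
      exact ht (Or.inr ⟨hA, Or.inl hcon⟩)
    · refine (roots_fin _ h1).mono ?_
      intro t ht
      by_contra hcon
      exact ht (Or.inr ⟨hA, Or.inr hcon⟩)
  · have hA' : derivative α - derivative μ * b ≠ 0 := sub_ne_zero.2 hA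
    refine (roots_fin _ hA').mono ?_
    intro t ht
    by_contra hcon
    apply ht
    left
    intro h
    apply hcon
    change Polynomial.eval t (derivative α - derivative μ * b) = 0
    rw [Polynomial.eval_sub, Polynomial.eval_mul, h, sub_self]

theorem goodt4 (hTL : QL.TL4_factsStatement) : QL.goodt4Statement := by
  intro x hx b μ α hb0 hμ0 hα0 hne
  obtain ⟨hdet, hL, hc, hR⟩ := (hTL.2.2 x).1 hx
  set Bad : Set ℝ :=
    (⋃ w ∈ {w : Fin 4 → ℤ | w ≠ 0}, {t : ℝ | ∃ c : ℝ,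
      iv w = c • (L4 ᵥ* (n4 (b.eval t) (μ.eval t) (α.eval t) * x))}) ∪
    (⋃ R ∈ {R : Matrix (Fin 4) (Fin 4) ℤ | R ≠ 0}, {t : ℝ | ∃ a' b' : ℝ,
        im R = a' • ((n4 (b.eval t) (μ.eval t) (α.eval t) * x)ᵀ * B4 *
            (n4 (b.eval t) (μ.eval t) (α.eval t) * x)) +
          b' • vecMulVec (L4 ᵥ* (n4 (b.eval t) (μ.eval t) (α.eval t) * x))
            (L4 ᵥ* (n4 (b.eval t) (μ.eval t) (α.eval t) * x))}) ∪
    {t : ℝ | ¬ ((derivative α).eval t ≠ (derivative μ).eval t * b.eval t ∨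
        (derivative α = derivative μ * b ∧
          ((derivative b).eval t ≠ 0 ∨ (derivative μ).eval t ≠ 0)))} with hBad
  have hc1 : Bad.Countable := by
    refine Set.Countable.union (Set.Countable.union ?_ ?_) ?_
    · exact Set.Countable.biUnion (Set.to_countable _) fun w hw =>
        bad1 x hdet hL b μ α hb0 w hw
    · have hcm : Countable (Matrix (Fin 4) (Fin 4) ℤ) :=
        inferInstanceAs (Countable (Fin 4 → Fin 4 → ℤ))
      exact Set.Countable.biUnion (Set.to_countable _) fun R hR0 =>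
        bad2 x hdet hR b μ α hb0 hμ0 hα0 R hR0
    · exact bad3 b μ α hb0 hμ0 hα0 hne
  have hex : ∃ t, 0 < t ∧ t ∉ Bad := by
    by_contra hcon
    push Not at hcon
    have hsub : Set.Ioi (0 : ℝ) ⊆ Bad := fun t ht => hcon t ht
    have h0 : volume (Set.Ioi (0 : ℝ)) = 0 := (hc1.mono hsub).measure_zero _
    rw [Real.volume_Ioi] at h0
    exact ENNReal.top_ne_zero h0
  obtain ⟨t, ht, htB⟩ := hex
  rw [hBad, Set.mem_union, Set.mem_union, not_or, not_or, Set.mem_iUnion₂, Set.mem_iUnion₂,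
    not_exists, not_exists] at htB
  obtain ⟨⟨h1, h2⟩, h3⟩ := htB
  simp only [not_exists] at h1 h2
  refine ⟨t, ht, ?_, ?_, ?_⟩
  · rintro w hw ⟨c, hc'⟩
    exact h1 w hw ⟨c, hc'⟩
  · rintro R hR0 ⟨a', b', h⟩
    exact h2 R hR0 ⟨a', b', h⟩
  · by_contra hcon
    exact h3 hcon

end QL.H60
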