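import Pool.Agent.Helper60_QL.Limit3

/-!
# QL module grow4, helper60
-/

set_option autoImplicit false
set_option linter.unusedSimpArgs false
open Matrix Polynomial MeasureTheory Set Filter Topology

namespace QL.H60

/-- a covector tensor of degree one as a covector -/
def m1 {ι : Type} (v : (Fin 1 → ι) → ℝ) : ι → ℝ := fun i => v (fun _ => i)

/-- a covector tensor of degree two as a matrix -/
def m2 {ι : Type} (v : (Fin 2 → ι) → ℝ) : Matrix ι ι ℝ := fun i j => v ![i, j]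

theorem m1_inj {ι : Type} {v v' : (Fin 1 → ι) → ℝ} (h : m1 v = m1 v') : v = v' := by
  funext f
  have h1 := congrFun h (f 0)
  have h2 : (fun _ => f 0) = f := by
    funext a
    rw [Subsingleton.elim a 0]
  simp only [m1] at h1
  rwa [h2] at h1

theorem m2_inj {ι : Type} {v v' : (Fin 2 → ι) → ℝ} (h : m2 v = m2 v') : v = v' := by
  funext f
  have h1 := congrFun (congrFun h (f 0)) (f 1)
  have h2 : ![f 0, f 1] = f := by
    funext a
    fin_cases a <;> rfl
  simp only [m2] at h1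
  rwa [h2] at h1

theorem m1_ract {ι : Type} [Fintype ι] [DecidableEq ι] (g : Matrix ι ι ℝ)
    (v : (Fin 1 → ι) → ℝ) : m1 (ract false 1 g v) = m1 v ᵥ* g⁻¹ := by
  funext i
  change ∑ f : Fin 1 → ι, tens 1 ((g⁻¹)ᵀ) (fun _ => i) f * v f = ∑ j, m1 v j * g⁻¹ j i
  refine Fintype.sum_equiv (Equiv.funUnique (Fin 1) ι) _ _ fun f => ?_
  have h2 : (fun _ => f 0) = f := by
    funext a
    rw [Subsingleton.elim a 0]
  have h3 : tens 1 ((g⁻¹)ᵀ) (fun _ => i) f = g⁻¹ (f 0) i := by
    simp [tens]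
  have h4 : (Equiv.funUnique (Fin 1) ι) f = f 0 := rfl
  rw [h3, h4]
  simp only [m1]
  rw [h2, mul_comm]

theorem m2_ract {ι : Type} [Fintype ι] [DecidableEq ι] (g : Matrix ι ι ℝ)
    (v : (Fin 2 → ι) → ℝ) : m2 (ract false 2 g v) = (g⁻¹)ᵀ * m2 v * g⁻¹ := by
  ext i j
  change ∑ f : Fin 2 → ι, tens 2 ((g⁻¹)ᵀ) ![i, j] f * v f = _
  have h1 : ∑ f : Fin 2 → ι, tens 2 ((g⁻¹)ᵀ) ![i, j] f * v f
      = ∑ p : ι × ι, g⁻¹ p.1 i * g⁻¹ p.2 j * m2 v p.1 p.2 := by
    refine Fintype.sum_equiv (finTwoArrowEquiv ι) _ _ fun f => ?_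
    have h2 : ![f 0, f 1] = f := by
      funext a
      fin_cases a <;> rfl
    have h3 : tens 2 ((g⁻¹)ᵀ) ![i, j] f = g⁻¹ (f 0) i * g⁻¹ (f 1) j := by
      simp [tens, Fin.prod_univ_two]
    have h4 : (finTwoArrowEquiv ι) f = (f 0, f 1) := rfl
    rw [h3, h4]
    simp only [m2]
    rw [h2]
  rw [h1, Fintype.sum_prod_type]
  simp only [Matrix.mul_apply, Matrix.transpose_apply, Finset.sum_mul]
  rw [Finset.sum_comm]
  refine Finset.sum_congr rfl fun l _ => Finset.sum_congr rfl fun k _ => ?_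
  ring

theorem growk (hdiag : QL.ract_diagStatement) {ι : Type} [Fintype ι] [DecidableEq ι]
    (wt : ι → ℤ) (k : ℕ) (y : Matrix ι ι ℝ) (hy : y.det = 1)
    (P : ((Fin k → ι) → ℤ) → Prop)
    (h0 : ∀ w, P w → ∀ i, ract false k y (iv w) i ≠ 0 → 0 ≤ -(∑ a, wt (i a)))
    (h1 : ∀ w, P w → ∃ i, ract false k y (iv w) i ≠ 0 ∧ 0 < -(∑ a, wt (i a))) (R : ℝ) :
    ∃ l0 : ℝ, 1 ≤ l0 ∧ ∀ l ≥ l0, ∀ w, P w →
      ∃ c, R ≤ |ract false k (Matrix.diagonal (fun j => l ^ wt j) * y) (iv w) c| := by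
  classical
  have hfin := fin_bdd false k y hy R
  have h1' : ∀ w, ∃ t : ℝ, P w → ∃ i, ract false k y (iv w) i ≠ 0 ∧ 0 < -(∑ a, wt (i a)) ∧
      |R| / |ract false k y (iv w) i| ≤ t := by
    intro w
    by_cases h : P w
    · obtain ⟨i, hi, hi'⟩ := h1 w h
      exact ⟨_, fun _ => ⟨i, hi, hi', le_rfl⟩⟩
    · exact ⟨0, fun h' => absurd h' h⟩
  choose l1 hl1 using h1'
  obtain ⟨B, hB⟩ := (hfin.image l1).bddAbove
  refine ⟨max 1 B, le_max_left _ _, fun l hl w hw => ?_⟩
  have hl1' : 1 ≤ l := (le_max_left _ _).trans hl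
  have hl0 : 0 < l := lt_of_lt_of_le one_pos hl1'
  by_cases hsmall : ∀ c, |ract false k y (iv w) c| ≤ R
  · obtain ⟨i, hne, hpos, hle⟩ := hl1 w hw
    refine ⟨i, ?_⟩
    rw [ract_mul, hdiag wt l hl0 false k _ i]
    simp only [Bool.false_eq_true, if_false]
    rw [abs_mul, abs_of_pos (zpow_pos hl0 _)]
    have h2 : l ≤ l ^ (-(∑ a, wt (i a))) := by
      calc l = l ^ (1 : ℤ) := (zpow_one l).symm
        _ ≤ l ^ (-(∑ a, wt (i a))) := zpow_le_zpow_right₀ hl1' (by omega)
    have h3 : l1 w ≤ l := (hB ⟨w, hsmall, rfl⟩).trans ((le_max_right _ _).trans hl)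
    have h4 : 0 < |ract false k y (iv w) i| := abs_pos.2 hne
    have h5 : |R| ≤ l * |ract false k y (iv w) i| := by
      have h6 := hle.trans h3
      rwa [div_le_iff₀ h4] at h6
    calc R ≤ |R| := le_abs_self R
      _ ≤ l * |ract false k y (iv w) i| := h5
      _ ≤ _ := mul_le_mul_of_nonneg_right h2 (abs_nonneg _)
  · push Not at hsmall
    obtain ⟨c, hc⟩ := hsmall
    refine ⟨c, ?_⟩
    rw [ract_mul, hdiag wt l hl0 false k _ c]
    simp only [Bool.false_eq_true, if_false]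
    rw [abs_mul, abs_of_pos (zpow_pos hl0 _)]
    by_cases hv : ract false k y (iv w) c = 0
    · rw [hv, abs_zero] at hc
      exact hc.le.trans (mul_nonneg (zpow_pos hl0 _).le (abs_nonneg _))
    · have h5 : 1 ≤ l ^ (-(∑ a, wt (c a))) := one_le_zpow₀ hl1' (h0 w hw c hv)
      calc R ≤ |ract false k y (iv w) c| := hc.le
        _ = 1 * |ract false k y (iv w) c| := (one_mul _).symm
        _ ≤ _ := mul_le_mul_of_nonneg_right h5 (abs_nonneg _)

def N4 : Matrix (Fin 4) (Fin 4) ℝ := !![0,0,0,0; 1,0,0,0; 0,1,0,0; 0,0,0,0]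
def wt4 : Fin 4 → ℤ := ![-1,0,1,0]

theorem a4_diag (l : ℝ) : a4 l = Matrix.diagonal (fun j => l ^ wt4 j) := by
  ext i j
  fin_cases i <;> fin_cases j <;> simp [a4, wt4]

theorem u4_N (t : ℝ) : u4 t = 1 + t • N4 + (t^2/2) • (N4 * N4) := by
  ext i j
  fin_cases i <;> fin_cases j <;> simp [u4, N4]

theorem N4_cube : N4 * N4 * N4 = 0 := by
  ext i j
  fin_cases i <;> fin_cases j <;> simp [N4]

theorem N4_comm : N4 * N4ᵀ - N4ᵀ * N4 = Matrix.diagonal (fun i => (wt4 i : ℝ)) := by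
  ext i j
  rw [Matrix.sub_apply, Matrix.mul_apply, Matrix.mul_apply, Fin.sum_univ_four,
    Fin.sum_univ_four]
  simp only [Matrix.transpose_apply]
  fin_cases i <;> fin_cases j <;> simp [N4, wt4]

theorem N4_wt : ∀ i j, N4 i j ≠ 0 → wt4 i = wt4 j + 1 := by
  intro i j
  fin_cases i <;> fin_cases j <;> simp [N4, wt4]

theorem a4_det (l : ℝ) (hl : 0 < l) : (Matrix.diagonal (fun j => l ^ wt4 j)).det = 1 := by
  rw [Matrix.det_diagonal, Fin.prod_univ_four]
  have : l ≠ 0 := hl.ne'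
  simp [wt4, this]

theorem u4_mul (s t : ℝ) : u4 s * u4 t = u4 (s + t) := by
  ext i j
  fin_cases i <;> fin_cases j <;>
    (simp [u4, Matrix.mul_apply, Fin.sum_univ_four]; try ring)

theorem u4_zero : u4 0 = 1 := by
  ext i j
  fin_cases i <;> fin_cases j <;> simp [u4]

theorem u4_inv (t : ℝ) : (u4 t)⁻¹ = u4 (-t) := by
  refine Matrix.inv_eq_right_inv ?_
  rw [u4_mul, add_neg_cancel, u4_zero]

/-- an integer covector is recovered from its image -/
theorem m1_back {ι : Type} [Fintype ι] [DecidableEq ι] (y : Matrix ι ι ℝ) (hy : y.det = 1)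
    (w : (Fin 1 → ι) → ℤ) :
    iv (fun j => w (fun _ => j)) = m1 (ract false 1 y (iv w)) ᵥ* y := by
  rw [m1_ract, Matrix.vecMul_vecMul, Matrix.nonsing_inv_mul _ (by rw [hy]; exact isUnit_one),
    Matrix.vecMul_one]
  rfl

theorem m2_back {ι : Type} [Fintype ι] [DecidableEq ι] (y : Matrix ι ι ℝ) (hy : y.det = 1)
    (w : (Fin 2 → ι) → ℤ) :
    im (fun i j => w ![i, j]) = yᵀ * m2 (ract false 2 y (iv w)) * y := by
  have hu : IsUnit y.det := by rw [hy]; exact isUnit_one
  have h1 : y⁻¹ * y = 1 := Matrix.nonsing_inv_mul _ hu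
  have h2 : yᵀ * (y⁻¹)ᵀ = 1 := by
    rw [← Matrix.transpose_mul, h1, Matrix.transpose_one]
  rw [m2_ract]
  calc im (fun i j => w ![i, j]) = m2 (iv w) := rfl
    _ = (yᵀ * (y⁻¹)ᵀ) * m2 (iv w) * (y⁻¹ * y) := by rw [h1, h2, Matrix.one_mul, Matrix.mul_one]
    _ = yᵀ * ((y⁻¹)ᵀ * m2 (iv w) * y⁻¹) * y := by simp only [Matrix.mul_assoc]

/-- a fixed covector off the line of `L4` has a nonzero first coordinate -/
theorem fix1 (hwt : QL.wt_genStatement) (y : Matrix (Fin 4) (Fin 4) ℝ) (hy : y.det = 1)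
    (h1 : ∀ w : Fin 4 → ℤ, w ≠ 0 → ¬ ∃ c : ℝ, iv w = c • (L4 ᵥ* y))
    (w : (Fin 1 → Fin 4) → ℤ) (hw : w ≠ 0)
    (hfix : ∀ t, ract false 1 (u4 t) (ract false 1 y (iv w)) = ract false 1 y (iv w)) :
    (∀ i, ract false 1 y (iv w) i ≠ 0 → 0 ≤ -(∑ a, wt4 (i a))) ∧
      ∃ i, ract false 1 y (iv w) i ≠ 0 ∧ 0 < -(∑ a, wt4 (i a)) := by
  set v := ract false 1 y (iv w) with hv
  have hsupp : ∀ i : Fin 1 → Fin 4, -(∑ a, wt4 (i a)) < 0 → v i = 0 := by
    intro i hi
    have := hwt N4 wt4 N4_cube N4_comm N4_wt false 1 v (fun t => by rw [← u4_N]; exact hfix t) i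
    simp only [Bool.false_eq_true, if_false] at this
    exact this hi
  refine ⟨fun i hi => ?_, ?_⟩
  · by_contra hneg
    push Not at hneg
    exact hi (hsupp i hneg)
  · by_contra hcon
    push Not at hcon
    -- first coordinate is zero
    have hv0 : m1 v 0 = 0 := by
      by_contra h0
      have := hcon (fun _ => 0) h0
      simp [wt4] at this
    have hv2 : m1 v 2 = 0 := hsupp (fun _ => 2) (by simp [wt4])
    have hv1 : m1 v 1 = 0 := by
      have h2 := congrArg m1 (hfix (-1))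
      rw [m1_ract, u4_inv, neg_neg] at h2
      have h3 := congrFun h2 0
      simp [Matrix.vecMul, dotProduct, Fin.sum_univ_four, u4] at h3
      rw [hv0, hv2] at h3
      simpa using h3
    have hm : m1 v = (m1 v 3) • L4 := by
      funext i
      fin_cases i
      · simpa [L4] using hv0
      · simpa [L4] using hv1
      · simpa [L4] using hv2
      · simp [L4]
    have hback := m1_back y hy w
    rw [← hv, hm, Matrix.smul_vecMul] at hback
    refine h1 (fun j => w (fun _ => j)) ?_ ⟨_, hback⟩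
    intro h0
    apply hw
    funext f
    have h4 := congrFun h0 (f 0)
    have h5 : (fun _ => f 0) = f := by
      funext a
      rw [Subsingleton.elim a 0]
    simp only [h5] at h4
    exact h4

/-- a fixed bilinear form off the pencil has a coordinate of positive weight -/
theorem fix2 (hwt : QL.wt_genStatement) (y : Matrix (Fin 4) (Fin 4) ℝ) (hy : y.det = 1)
    (h2 : ∀ R : Matrix (Fin 4) (Fin 4) ℤ, R ≠ 0 → ¬ ∃ a b : ℝ,
      im R = a • (yᵀ * B4 * y) + b • vecMulVec (L4 ᵥ* y) (L4 ᵥ* y))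
    (w : (Fin 2 → Fin 4) → ℤ) (hw : w ≠ 0)
    (hfix : ∀ t, ract false 2 (u4 t) (ract false 2 y (iv w)) = ract false 2 y (iv w)) :
    (∀ i, ract false 2 y (iv w) i ≠ 0 → 0 ≤ -(∑ a, wt4 (i a))) ∧
      ∃ i, ract false 2 y (iv w) i ≠ 0 ∧ 0 < -(∑ a, wt4 (i a)) := by
  set v := ract false 2 y (iv w) with hv
  have hsupp : ∀ i : Fin 2 → Fin 4, -(∑ a, wt4 (i a)) < 0 → v i = 0 := by
    intro i hi
    have := hwt N4 wt4 N4_cube N4_comm N4_wt false 2 v (fun t => by rw [← u4_N]; exact hfix t) i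
    simp only [Bool.false_eq_true, if_false] at this
    exact this hi
  refine ⟨fun i hi => ?_, ?_⟩
  · by_contra hneg
    push Not at hneg
    exact hi (hsupp i hneg)
  · by_contra hcon
    push Not at hcon
    -- all coordinates of nonzero weight vanish
    have hz : ∀ i j : Fin 4, wt4 i + wt4 j ≠ 0 → m2 v i j = 0 := by
      intro i j hij
      by_contra h0
      have h3 := hcon ![i, j] h0
      have h4 : ∑ a, wt4 (![i, j] a) = wt4 i + wt4 j := by
        rw [Fin.sum_univ_two]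
        rfl
      rw [h4] at h3
      have h5 : -(∑ a, wt4 (![i, j] a)) < 0 := by
        rw [h4]
        omega
      exact h0 (hsupp ![i, j] h5)
    have hinv := congrArg m2 (hfix (-1))
    rw [m2_ract, u4_inv, neg_neg] at hinv
    have z00 : m2 v 0 0 = 0 := hz 0 0 (by simp [wt4])
    have z01 : m2 v 0 1 = 0 := hz 0 1 (by simp [wt4])
    have z10 : m2 v 1 0 = 0 := hz 1 0 (by simp [wt4])
    have z03 : m2 v 0 3 = 0 := hz 0 3 (by simp [wt4])
    have z30 : m2 v 3 0 = 0 := hz 3 0 (by simp [wt4])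
    have z12 : m2 v 1 2 = 0 := hz 1 2 (by simp [wt4])
    have z21 : m2 v 2 1 = 0 := hz 2 1 (by simp [wt4])
    have z22 : m2 v 2 2 = 0 := hz 2 2 (by simp [wt4])
    have z23 : m2 v 2 3 = 0 := hz 2 3 (by simp [wt4])
    have z32 : m2 v 3 2 = 0 := hz 3 2 (by simp [wt4])
    have e01 : m2 v 1 1 = - m2 v 0 2 := by
      have h3 := congrFun (congrFun hinv 0) 1
      simp [Matrix.mul_apply, Fin.sum_univ_four, u4, z00, z01, z10, z12, z21, z22, z03, z30, z23,
        z32] at h3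
      linarith
    have e10 : m2 v 1 1 = - m2 v 2 0 := by
      have h3 := congrFun (congrFun hinv 1) 0
      simp [Matrix.mul_apply, Fin.sum_univ_four, u4, z00, z01, z10, z12, z21, z22, z03, z30, z23,
        z32] at h3
      linarith
    have e03 : m2 v 1 3 = 0 := by
      have h3 := congrFun (congrFun hinv 0) 3
      simp [Matrix.mul_apply, Fin.sum_univ_four, u4, z00, z01, z10, z12, z21, z22, z03, z30, z23,
        z32] at h3
      linarith
    have e30 : m2 v 3 1 = 0 := by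
      have h3 := congrFun (congrFun hinv 3) 0
      simp [Matrix.mul_apply, Fin.sum_univ_four, u4, z00, z01, z10, z12, z21, z22, z03, z30, z23,
        z32] at h3
      linarith
    have hm : m2 v = (m2 v 0 2) • B4 + (m2 v 3 3) • vecMulVec L4 L4 := by
      ext i j
      rw [Matrix.add_apply, Matrix.smul_apply, Matrix.smul_apply, Matrix.vecMulVec_apply]
      fin_cases i <;> fin_cases j <;>
        (simp [B4, L4, z00, z01, z10, z12, z21, z22, z03, z30, z23, z32, e01, e03, e30]; try linarith)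
    have hback := m2_back y hy w
    rw [← hv, hm, Matrix.mul_add, Matrix.add_mul, Matrix.mul_smul, Matrix.mul_smul,
      Matrix.smul_mul, Matrix.smul_mul, Matrix.mul_vecMulVec, Matrix.vecMulVec_mul,
      Matrix.mulVec_transpose] at hback
    refine h2 (fun i j => w ![i, j]) ?_ ⟨_, _, hback⟩
    intro h0
    apply hw
    funext f
    have h4 := congrFun (congrFun h0 (f 0)) (f 1)
    have h5 : ![f 0, f 1] = f := by
      funext a
      fin_cases a <;> rfl
    simp only [h5] at h4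
    exact h4

theorem grow4 (hwt : QL.wt_genStatement) (hdiag : QL.ract_diagStatement) :
    QL.grow4Statement := by
  intro y hy h1 h2 R
  obtain ⟨la, hla1, hla⟩ := growk hdiag wt4 1 y hy (fun w => w ≠ 0 ∧
    ∀ t, ract false 1 (u4 t) (ract false 1 y (iv w)) = ract false 1 y (iv w))
    (fun w hw => (fix1 hwt y hy h1 w hw.1 hw.2).1) (fun w hw => (fix1 hwt y hy h1 w hw.1 hw.2).2) R
  obtain ⟨lb, hlb1, hlb⟩ := growk hdiag wt4 2 y hy (fun w => w ≠ 0 ∧
    ∀ t, ract false 2 (u4 t) (ract false 2 y (iv w)) = ract false 2 y (iv w))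
    (fun w hw => (fix2 hwt y hy h2 w hw.1 hw.2).1) (fun w hw => (fix2 hwt y hy h2 w hw.1 hw.2).2) R
  refine ⟨max la lb, fun l hl T hT => ?_⟩
  have hla' : la ≤ l := (le_max_left _ _).trans hl
  have hlb' : lb ≤ l := (le_max_right _ _).trans hl
  simp only [TL4, List.mem_cons, List.not_mem_nil, or_false] at hT
  rcases hT with rfl | rfl | rfl
  · intro w hw hfix
    have := hlb l hlb' w ⟨hw, hfix⟩
    rw [← a4_diag] at this
    exact this
  · intro w hw hfix
    have := hla l hla' w ⟨hw, hfix⟩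
    rw [← a4_diag] at this
    exact this
  · intro w hw hfix
    have := hla l hla' w ⟨hw, hfix⟩
    rw [← a4_diag] at this
    exact this

end QL.H60
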